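import Pool.Agent.Helper96_AEU.Death3
import Pool.Agent.Helper62_AEU.Stmt

/-!
AEU, Part I, module DEATH: the area of an inner parallel body of a polygon.
-/

namespace Pool.Agent.AEU.H96

open MeasureTheory Set Filter Topology Pool.Agent.H62T Pool.Agent.AEU
open Pool.Agent.H16F (Sublin ind)
open Pool.Agent.H96A (Q Lf Simple bs AA A3 zz IsQ)

variable {P : Finset HP}

/-- the three terms of a dependency -/
theorem conc {a b c : HP} {x y : ℂ} (ea : ip a.1 x = a.2) (eb : ip b.1 x = b.2)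
    (ec : ip c.1 x = c.2) (ya : ip a.1 y < a.2) (yb : ip b.1 y < b.2) (yc : ip c.1 y = c.2)
    (h0 : dt b.1 c.1 ≠ 0) : dt b.1 c.1 * dt c.1 a.1 ≤ 0 := by
  by_contra hcon
  push Not at hcon
  have hid : dt b.1 c.1 * (ip a.1 y - a.2) + dt c.1 a.1 * (ip b.1 y - b.2) = 0 := by
    have e1 : dt b.1 c.1 * ip a.1 y + dt c.1 a.1 * ip b.1 y + dt a.1 b.1 * ip c.1 y = 0 := by
      unfold dt ip; ring
    have e2 : dt b.1 c.1 * ip a.1 x + dt c.1 a.1 * ip b.1 x + dt a.1 b.1 * ip c.1 x = 0 := by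
      unfold dt ip; ring
    rw [ea, eb, ec] at e2
    rw [yc] at e1
    linarith
  have h1 : 0 < dt b.1 c.1 * dt b.1 c.1 := mul_self_pos.2 h0
  have h2 : dt b.1 c.1 * dt b.1 c.1 * (ip a.1 y - a.2) < 0 :=
    mul_neg_of_pos_of_neg h1 (by linarith)
  have h3 : dt b.1 c.1 * dt c.1 a.1 * (ip b.1 y - b.2) < 0 :=
    mul_neg_of_pos_of_neg hcon (by linarith)
  have h4 : dt b.1 c.1 * (dt b.1 c.1 * (ip a.1 y - a.2) + dt c.1 a.1 * (ip b.1 y - b.2)) = 0 := by
    rw [hid, mul_zero]
  nlinarith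

/-- three side lines of a polygon are not concurrent at a point of the polygon -/
theorem no_three (hP : Pg P) (hn : Nonpar P) {a b c : HP} (ha : a ∈ P) (hb : b ∈ P) (hc : c ∈ P)
    (hab : a ≠ b) (hac : a ≠ c) (hbc : b ≠ c) {x : ℂ} (ea : ip a.1 x = a.2)
    (eb : ip b.1 x = b.2) : ip c.1 x ≠ c.2 := by
  intro ec
  obtain ⟨y1, h1, h1'⟩ := hP.side a ha
  obtain ⟨y2, h2, h2'⟩ := hP.side b hb
  obtain ⟨y3, h3, h3'⟩ := hP.side c hc
  have n1 := hn b hb c hc hbc
  have n2 := hn c hc a ha hac.symm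
  have n3 := hn a ha b hb hab
  have k3 := conc ea eb ec (h3' a ha hac) (h3' b hb hbc) h3 n1
  have k1 := conc eb ec ea (h1' b hb hab.symm) (h1' c hc hac.symm) h1 n2
  have k2 := conc ec ea eb (h2' c hc hbc.symm) (h2' a ha hab) h2 n3
  have hpos : 0 < (dt b.1 c.1 * dt c.1 a.1 * dt a.1 b.1) ^ 2 := by positivity
  have e : (dt b.1 c.1 * dt c.1 a.1 * dt a.1 b.1) ^ 2 =
      (dt b.1 c.1 * dt c.1 a.1) * ((dt c.1 a.1 * dt a.1 b.1) * (dt a.1 b.1 * dt b.1 c.1)) := by
    ring
  rw [e] at hpos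
  have := mul_nonneg_of_nonpos_of_nonpos k1 k2
  have := mul_nonpos_of_nonpos_of_nonneg k3 this
  linarith

theorem ray (hP : Pg P) {w : ℂ} (hw : w ≠ 0) : ∃ s ∈ P, 0 < ip s.1 w := by
  by_contra hcon
  push Not at hcon
  obtain ⟨s0, hs0⟩ : P.Nonempty := Finset.card_pos.1 (by have := hP.card; omega)
  obtain ⟨x, hx, hx'⟩ := hP.side s0 hs0
  have hxc : x ∈ Cl P := by
    intro t ht
    by_cases h : t = s0
    · rw [h, hx]
    · exact (hx' t ht h).le
  obtain ⟨R, hR⟩ := hP.bdd.exists_norm_le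
  have hw' : 0 < ‖w‖ := norm_pos_iff.2 hw
  have hray : ∀ r : ℝ, 0 ≤ r → x + (r : ℂ) * w ∈ Cl P := by
    intro r hr t ht
    have e : ip t.1 (x + (r : ℂ) * w) = ip t.1 x + r * ip t.1 w := by
      unfold ip; simp; ring
    rw [e]
    have h1 := hxc t ht
    have h2 := mul_nonpos_of_nonneg_of_nonpos hr (hcon t ht)
    linarith
  have h1 := hR _ (hray ((R + ‖x‖ + 1) / ‖w‖) (by
    have := (norm_nonneg x).trans (hR x hxc)
    have := norm_nonneg x
    positivity))
  have h2 : ‖(((R + ‖x‖ + 1) / ‖w‖ : ℝ) : ℂ) * w‖ = R + ‖x‖ + 1 := by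
    rw [norm_mul, Complex.norm_real, Real.norm_eq_abs, abs_of_nonneg (by
      have := (norm_nonneg x).trans (hR x hxc)
      have := norm_nonneg x
      positivity), div_mul_cancel₀ _ hw'.ne']
  have h3 := norm_sub_le (x + (((R + ‖x‖ + 1) / ‖w‖ : ℝ) : ℂ) * w) x
  rw [add_sub_cancel_left, h2] at h3
  linarith

/-- the normals of the sides -/
def nu (P : Finset HP) (i : {s // s ∈ P}) : ℂ := i.1.1

/-- the support numbers of the sides -/
def nH (P : Finset HP) (i : {s // s ∈ P}) : ℝ := i.1.2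

theorem gen_nu (hP : Pg P) (hn : Nonpar P) : Pool.Agent.H96A.Gen (nu P) := by
  constructor
  · intro i j hij
    exact hn i.1 i.2 j.1 j.2 fun e => hij (Subtype.ext e)
  · intro w hw
    obtain ⟨s, hs, h⟩ := ray hP hw
    exact ⟨⟨s, hs⟩, h⟩

theorem simple_nu (hP : Pg P) (hn : Nonpar P) : Simple (nu P) (nH P) := by
  intro x _ i j k hij hik hjk e1 e2
  exact no_three hP hn i.2 j.2 k.2 (fun e => hij (Subtype.ext e)) (fun e => hik (Subtype.ext e))
    (fun e => hjk (Subtype.ext e)) e1 e2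

/-- restriction of a body to the normals of the sides -/
def nh (P : Finset HP) (h : ℂ → ℝ) (i : {s // s ∈ P}) : ℝ := h i.1.1

/-- four different half-planes -/
theorem noTie_four {h : ℂ → ℝ} (ht : NoTie P h) {σ : ℝ} (hσ : 0 < σ) {x : ℂ} {a b c d : HP}
    (ha : a ∈ P) (hb : b ∈ P) (hc : c ∈ P) (hd : d ∈ P) (hab : a ≠ b) (hac : a ≠ c)
    (had : a ≠ d) (hbc : b ≠ c) (hbd : b ≠ d) (hcd : c ≠ d) (ea : σ * h a.1 + ip a.1 x = a.2)
    (eb : σ * h b.1 + ip b.1 x = b.2) (ec : σ * h c.1 + ip c.1 x = c.2) :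
    σ * h d.1 + ip d.1 x ≠ d.2 := by
  classical
  intro ed
  obtain ⟨s, hs, hne⟩ := ht σ x hσ {a, b, c, d} (by
    intro s hs
    simp only [Finset.mem_insert, Finset.mem_singleton] at hs
    rcases hs with rfl | rfl | rfl | rfl <;> assumption) (by
    rw [Finset.card_insert_of_notMem, Finset.card_insert_of_notMem, Finset.card_insert_of_notMem,
      Finset.card_singleton]
    · simpa using hcd
    · simp [hbc, hbd]
    · simp [hab, hac, had])
  apply hne
  simp only [Finset.mem_insert, Finset.mem_singleton] at hs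
  rcases hs with rfl | rfl | rfl | rfl <;> assumption

theorem noTie_nu {h : ℂ → ℝ} (ht : NoTie P h) :
    Pool.Agent.H96A.NoTie (nu P) (nH P) (nh P h) := by
  intro s h0 _ x _ i j k l hij hik hil hjk hjl hkl e1 e2 e3 e4
  refine noTie_four ht h0 i.2 j.2 k.2 l.2 (fun e => hij (Subtype.ext e))
    (fun e => hik (Subtype.ext e)) (fun e => hil (Subtype.ext e)) (fun e => hjk (Subtype.ext e))
    (fun e => hjl (Subtype.ext e)) (fun e => hkl (Subtype.ext e)) (x := x) ?_ ?_ ?_ ?_ <;>
  · simp only [nu, nH, nh, bs] at e1 e2 e3 e4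
    linarith

/-- contribution of an ordered triple -/
noncomputable def zh (h : ℂ → ℝ) (a b c : HP) : ℝ :=
  -(Real.sign (DD a.1 b.1 c.1 h)) * ((D0 a b c - DD a.1 b.1 c.1 h) ^ 2 / (2 * pr a.1 b.1 c.1))

theorem zz_eq (h : ℂ → ℝ) (i j k : {s // s ∈ P}) :
    zz (nu P) (nh P h) (bs (nH P) (nh P h) 1) i j k = zh h i.1 j.1 k.1 := by
  unfold zz zh
  have e : Lf (nu P) (bs (nH P) (nh P h) 1) i j k
      = D0 i.1 j.1 k.1 - DD i.1.1 j.1.1 k.1.1 h := by
    rw [Pool.Agent.H96A.Lf_bs, one_mul]; rfl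
  rw [e]
  rfl

theorem D0_eq {h : ℂ → ℝ} {σ : ℝ} {x : ℂ} {a b c : HP} (ea : σ * h a.1 + ip a.1 x = a.2)
    (eb : σ * h b.1 + ip b.1 x = b.2) (ec : σ * h c.1 + ip c.1 x = c.2) :
    D0 a b c = σ * DD a.1 b.1 c.1 h := by
  unfold D0 DD
  rw [← ea, ← eb, ← ec]
  unfold dt ip; ring

theorem D0_swap (a b c : HP) : D0 b a c = -D0 a b c := by
  unfold D0 dt; ring

theorem DD_swap (a b c : ℂ) (h : ℂ → ℝ) : DD b a c h = -DD a b c h := by
  unfold DD dt; ring

theorem pr_swap (a b c : ℂ) : pr b a c = -pr a b c := by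
  unfold pr dt; ring

theorem mem_touch {h : ℂ → ℝ} {s : HP} : s ∈ touch P h ↔ s ∈ P ∧ h s.1 = s.2 := by
  unfold touch; rw [Finset.mem_filter]

open Classical in
/-- the sum over ordered triples of sides of an event -/
theorem sum_S {h : ℂ → ℝ} {S : Finset HP} (hE : Ev P S h) :
    ∑ a ∈ S, ∑ b ∈ S, ∑ c ∈ S, zh h a b c = 6 * Zs S h := by
  obtain ⟨σ, x, h0, h1, hf, ht⟩ := hE
  have hS : ∀ s ∈ S, σ * h s.1 + ip s.1 x = s.2 := by
    intro s hs
    rw [← ht, mem_touch] at hs
    exact hs.2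
  have key : ∀ a ∈ S, ∀ b ∈ S, ∀ c ∈ S, zh h a b c =
      (if 0 < D0 a b c then ZZ a.1 b.1 c.1 (D0 a b c) h else 0)
      + (if 0 < D0 b a c then ZZ b.1 a.1 c.1 (D0 b a c) h else 0) := by
    intro a ha b hb c hc
    have e := D0_eq (hS a ha) (hS b hb) (hS c hc)
    rw [D0_swap a b c]
    have hmin : ∀ d : ℝ, 0 < σ * d → min (σ * d - d) 0 = σ * d - d := by
      intro d hd
      apply min_eq_left
      have : 0 < d := by
        by_contra hc
        push Not at hc
        nlinarith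
      nlinarith
    rcases lt_trichotomy (D0 a b c) 0 with hD | hD | hD
    · rw [if_neg (not_lt.2 hD.le), if_pos (by linarith)]
      have hDD : DD a.1 b.1 c.1 h < 0 := by
        by_contra hc
        push Not at hc
        have := mul_nonneg h0.le hc
        linarith
      unfold zh ZZ
      rw [DD_swap a.1 b.1 c.1 h, pr_swap a.1 b.1 c.1, Real.sign_of_neg hDD, e]
      have h2 := hmin (-DD a.1 b.1 c.1 h) (by rw [e] at hD; linarith)
      have h3 : -(σ * DD a.1 b.1 c.1 h) - -DD a.1 b.1 c.1 h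
          = σ * -DD a.1 b.1 c.1 h - -DD a.1 b.1 c.1 h := by ring
      rw [h3, h2]
      have h5 : 2 * -pr a.1 b.1 c.1 = -(2 * pr a.1 b.1 c.1) := by ring
      rw [h5, div_neg]
      ring
    · have hDD : DD a.1 b.1 c.1 h = 0 := by
        rw [e] at hD
        exact (mul_eq_zero.1 hD).resolve_left h0.ne'
      rw [hD]
      unfold zh
      rw [hDD]; simp
    · rw [if_pos hD, if_neg (by linarith)]
      have hDD : 0 < DD a.1 b.1 c.1 h := by
        by_contra hc
        push Not at hc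
        have := mul_nonpos_of_nonneg_of_nonpos h0.le hc
        linarith
      unfold zh ZZ
      rw [Real.sign_of_pos hDD, e, hmin _ (by rw [← e]; exact hD)]
      ring
  have h2 : ∑ a ∈ S, ∑ b ∈ S, ∑ c ∈ S, zh h a b c
      = ∑ a ∈ S, ∑ b ∈ S, ∑ c ∈ S, (if 0 < D0 a b c then ZZ a.1 b.1 c.1 (D0 a b c) h else 0)
        + ∑ a ∈ S, ∑ b ∈ S, ∑ c ∈ S,
          (if 0 < D0 b a c then ZZ b.1 a.1 c.1 (D0 b a c) h else 0) := by
    rw [← Finset.sum_add_distrib]
    apply Finset.sum_congr rfl; intro a ha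
    rw [← Finset.sum_add_distrib]
    apply Finset.sum_congr rfl; intro b hb
    rw [← Finset.sum_add_distrib]
    apply Finset.sum_congr rfl; intro c hc
    exact key a ha b hb c hc
  have h3 : ∑ a ∈ S, ∑ b ∈ S, ∑ c ∈ S,
      (if 0 < D0 b a c then ZZ b.1 a.1 c.1 (D0 b a c) h else 0)
      = ∑ a ∈ S, ∑ b ∈ S, ∑ c ∈ S, (if 0 < D0 a b c then ZZ a.1 b.1 c.1 (D0 a b c) h else 0) := by
    rw [Finset.sum_comm]
  rw [h2, h3]
  unfold Zs
  ring

theorem zh_degenerate {h : ℂ → ℝ} {a b c : HP} (hd : ¬ (a ≠ b ∧ c ≠ a ∧ c ≠ b)) :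
    zh h a b c = 0 := by
  have : pr a.1 b.1 c.1 = 0 := by
    have hz : ∀ z : ℂ, dt z z = 0 := fun z => by unfold dt; ring
    unfold pr
    by_cases h1 : a = b
    · rw [h1, hz]; ring
    by_cases h2 : c = a
    · rw [h2, hz]; ring
    by_cases h3 : c = b
    · rw [h3, hz]; ring
    exact absurd ⟨h1, h2, h3⟩ hd
  unfold zh
  rw [this]; simp

open Classical in
theorem death_triples {h : ℂ → ℝ} (ht : NoTie P h) :
    (∑ i, ∑ j, ∑ k, if A3 (nu P) (nH P) (nh P h) i j k then
      zz (nu P) (nh P h) (bs (nH P) (nh P h) 1) i j k else 0)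
      = 6 * ∑ S ∈ P.powersetCard 3, ind (Ev P S h) * Zs S h := by
  -- step 1: in terms of half-planes
  have h1 : ∀ i j k : {s // s ∈ P}, (if A3 (nu P) (nH P) (nh P h) i j k then
      zz (nu P) (nh P h) (bs (nH P) (nh P h) 1) i j k else 0)
      = if ((i.1 ≠ j.1 ∧ k.1 ≠ i.1 ∧ k.1 ≠ j.1) ∧ Ev P {i.1, j.1, k.1} h) then
        zh h i.1 j.1 k.1 else 0 := by
    intro i j k
    rw [zz_eq]
    by_cases hA : A3 (nu P) (nH P) (nh P h) i j k
    · rw [if_pos hA]
      obtain ⟨⟨hij, hki, hkj⟩, s, s0, s1, x, hx, e1, e2, e3⟩ := hA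
      have hij' : i.1 ≠ j.1 := fun e => hij (Subtype.ext e)
      have hki' : k.1 ≠ i.1 := fun e => hki (Subtype.ext e)
      have hkj' : k.1 ≠ j.1 := fun e => hkj (Subtype.ext e)
      rw [if_pos]
      refine ⟨⟨hij', hki', hkj'⟩, s, x, s0, s1.le, ?_, ?_⟩
      · intro t htP
        have := hx ⟨t, htP⟩
        simp only [nu, nH, nh, bs] at this
        linarith
      · have a1 : s * h i.1.1 + ip i.1.1 x = i.1.2 := by
          simp only [nu, nH, nh, bs] at e1; linarith
        have a2 : s * h j.1.1 + ip j.1.1 x = j.1.2 := by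
          simp only [nu, nH, nh, bs] at e2; linarith
        have a3 : s * h k.1.1 + ip k.1.1 x = k.1.2 := by
          simp only [nu, nH, nh, bs] at e3; linarith
        ext t
        rw [mem_touch]
        simp only [Finset.mem_insert, Finset.mem_singleton]
        constructor
        · rintro ⟨htP, hte⟩
          by_contra hcon
          push Not at hcon
          exact noTie_four ht s0 i.2 j.2 k.2 htP hij' hki'.symm hcon.1.symm hkj'.symm
            hcon.2.1.symm hcon.2.2.symm a1 a2 a3 hte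
        · rintro (rfl | rfl | rfl)
          · exact ⟨i.2, a1⟩
          · exact ⟨j.2, a2⟩
          · exact ⟨k.2, a3⟩
    · rw [if_neg hA]
      split_ifs with hE
      · obtain ⟨⟨hij, hki, hkj⟩, s, x, s0, s1, hf, htt⟩ := hE
        have hm : ∀ t : HP, (t = i.1 ∨ t = j.1 ∨ t = k.1) → s * h t.1 + ip t.1 x = t.2 := by
          intro t ht'
          have : t ∈ touch P (fun w => s * h w + ip w x) := by
            rw [htt]
            simpa only [Finset.mem_insert, Finset.mem_singleton] using ht'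
          exact (mem_touch.1 this).2
        have a1 := hm i.1 (Or.inl rfl)
        have a2 := hm j.1 (Or.inr (Or.inl rfl))
        have a3 := hm k.1 (Or.inr (Or.inr rfl))
        rcases s1.lt_or_eq with hs | hs
        · exfalso
          apply hA
          refine ⟨⟨fun e => hij (congrArg _ e), fun e => hki (congrArg _ e),
            fun e => hkj (congrArg _ e)⟩, s, s0, hs, x, ?_, ?_, ?_, ?_⟩
          · intro t
            have := hf t.1 t.2
            simp only [nu, nH, nh, bs]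
            linarith
          · simp only [nu, nH, nh, bs]; linarith
          · simp only [nu, nH, nh, bs]; linarith
          · simp only [nu, nH, nh, bs]; linarith
        · have e := D0_eq a1 a2 a3
          rw [hs, one_mul] at e
          unfold zh
          rw [e]; simp
      · rfl
  have h2 : (∑ i, ∑ j, ∑ k, if A3 (nu P) (nH P) (nh P h) i j k then
      zz (nu P) (nh P h) (bs (nH P) (nh P h) 1) i j k else 0)
      = ∑ a ∈ P, ∑ b ∈ P, ∑ c ∈ P,
        if ((a ≠ b ∧ c ≠ a ∧ c ≠ b) ∧ Ev P {a, b, c} h) then zh h a b c else 0 := by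
    rw [← Finset.sum_coe_sort P]
    apply Finset.sum_congr rfl; intro i _
    rw [← Finset.sum_coe_sort P]
    apply Finset.sum_congr rfl; intro j _
    rw [← Finset.sum_coe_sort P]
    apply Finset.sum_congr rfl; intro k _
    exact h1 i j k
  -- step 2: group by the set of the three half-planes
  have h3 : ∀ a ∈ P, ∀ b ∈ P, ∀ c ∈ P,
      (if ((a ≠ b ∧ c ≠ a ∧ c ≠ b) ∧ Ev P {a, b, c} h) then zh h a b c else 0)
      = ∑ S ∈ P.powersetCard 3, if S = {a, b, c} then ind (Ev P S h) * zh h a b c else 0 := by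
    intro a ha b hb c hc
    rw [Finset.sum_ite_eq']
    by_cases hd : a ≠ b ∧ c ≠ a ∧ c ≠ b
    · have hm : ({a, b, c} : Finset HP) ∈ P.powersetCard 3 := by
        rw [Finset.mem_powersetCard]
        refine ⟨?_, ?_⟩
        · intro s hs
          simp only [Finset.mem_insert, Finset.mem_singleton] at hs
          rcases hs with rfl | rfl | rfl <;> assumption
        · rw [Finset.card_insert_of_notMem, Finset.card_insert_of_notMem, Finset.card_singleton]
          · simpa using hd.2.2.symm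
          · simp [hd.1, hd.2.1.symm]
      rw [if_pos hm]
      unfold ind
      by_cases hE : Ev P {a, b, c} h
      · rw [if_pos ⟨hd, hE⟩, if_pos hE, one_mul]
      · rw [if_neg (fun e => hE e.2), if_neg hE, zero_mul]
    · rw [if_neg (fun e => hd e.1), zh_degenerate hd, mul_zero]
      simp
  have h4 : ∀ S ∈ P.powersetCard 3, ∑ a ∈ P, ∑ b ∈ P, ∑ c ∈ P,
      (if S = {a, b, c} then ind (Ev P S h) * zh h a b c else 0)
      = ind (Ev P S h) * ∑ a ∈ S, ∑ b ∈ S, ∑ c ∈ S, zh h a b c := by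
    intro S hS
    rw [Finset.mem_powersetCard] at hS
    rw [Finset.mul_sum]
    symm
    apply Finset.sum_subset_zero_on_sdiff hS.1
    · intro a ha
      rw [Finset.mem_sdiff] at ha
      apply Finset.sum_eq_zero; intro b _
      apply Finset.sum_eq_zero; intro c _
      rw [if_neg]
      intro e
      apply ha.2
      rw [e]; simp
    · intro a ha
      rw [Finset.mul_sum]
      apply Finset.sum_subset_zero_on_sdiff hS.1
      · intro b hb
        rw [Finset.mem_sdiff] at hb
        apply Finset.sum_eq_zero; intro c _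
        rw [if_neg]
        intro e
        apply hb.2
        rw [e]; simp
      · intro b hb
        rw [Finset.mul_sum]
        apply Finset.sum_subset_zero_on_sdiff hS.1
        · intro c hc
          rw [Finset.mem_sdiff] at hc
          rw [if_neg]
          intro e
          apply hc.2
          rw [e]; simp
        · intro c hc
          by_cases hd : a ≠ b ∧ c ≠ a ∧ c ≠ b
          · have hsub : ({a, b, c} : Finset HP) ⊆ S := by
              intro s hs
              simp only [Finset.mem_insert, Finset.mem_singleton] at hs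
              rcases hs with rfl | rfl | rfl <;> assumption
            have hcard : ({a, b, c} : Finset HP).card = 3 := by
              rw [Finset.card_insert_of_notMem, Finset.card_insert_of_notMem,
                Finset.card_singleton]
              · simpa using hd.2.2.symm
              · simp [hd.1, hd.2.1.symm]
            have : S = {a, b, c} :=
              (Finset.eq_of_subset_of_card_le hsub (by rw [hcard, hS.2])).symm
            rw [if_pos this]
          · rw [zh_degenerate hd, mul_zero]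
            simp
  rw [h2]
  have h5 : (∑ a ∈ P, ∑ b ∈ P, ∑ c ∈ P,
        if ((a ≠ b ∧ c ≠ a ∧ c ≠ b) ∧ Ev P {a, b, c} h) then zh h a b c else 0)
      = ∑ S ∈ P.powersetCard 3, ∑ a ∈ P, ∑ b ∈ P, ∑ c ∈ P,
        if S = {a, b, c} then ind (Ev P S h) * zh h a b c else 0 := by
    symm
    rw [Finset.sum_comm]
    apply Finset.sum_congr rfl; intro a ha
    rw [Finset.sum_comm]
    apply Finset.sum_congr rfl; intro b hb
    rw [Finset.sum_comm]
    apply Finset.sum_congr rfl; intro c hc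
    exact (h3 a ha b hb c hc).symm
  rw [h5, Finset.mul_sum]
  apply Finset.sum_congr rfl
  intro S hS
  rw [h4 S hS]
  by_cases hE : Ev P S h
  · rw [sum_S hE]; ring
  · unfold ind
    rw [if_neg hE]; ring

/-- **DEATH** -/
theorem death : DeathStmt := by
  classical
  intro P hP hn
  obtain ⟨W, ⟨w0, w1, w2, hW⟩, key⟩ := Pool.Agent.H96A.death (gen_nu hP hn) (simple_nu hP hn)
  refine ⟨w0, fun s => if hs : s ∈ P then w1 ⟨s, hs⟩ else 0,
    fun s r => if hs : s ∈ P then (if hr : r ∈ P then w2 ⟨s, hs⟩ ⟨r, hr⟩ else 0) else 0, ?_⟩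
  intro h _ ht
  have e1 : Q (nu P) (bs (nH P) (nh P h) 1) = {x : ℂ | ∀ s ∈ P, ip s.1 x ≤ s.2 - h s.1} := by
    ext x
    unfold Q
    simp only [mem_ofPred_eq, nu, bs, nH, nh, one_mul]
    exact ⟨fun hx s hs => hx ⟨s, hs⟩, fun hx i => hx i.1 i.2⟩
  have e2 := key (nh P h) (noTie_nu ht)
  rw [e1, hW, death_triples ht] at e2
  rw [e2]
  have e3 : ∑ s ∈ P, (if hs : s ∈ P then w1 ⟨s, hs⟩ else 0) * h s.1 = ∑ i, w1 i * nh P h i := by
    rw [← Finset.sum_coe_sort P]
    apply Finset.sum_congr rfl; intro i _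
    rw [dif_pos i.2]; rfl
  have e4 : ∑ s ∈ P, ∑ r ∈ P, (if hs : s ∈ P then (if hr : r ∈ P then w2 ⟨s, hs⟩ ⟨r, hr⟩ else 0)
      else 0) * (h s.1 * h r.1) = ∑ i, ∑ j, w2 i j * nh P h i * nh P h j := by
    rw [← Finset.sum_coe_sort P]
    apply Finset.sum_congr rfl; intro i _
    rw [← Finset.sum_coe_sort P]
    apply Finset.sum_congr rfl; intro j _
    rw [dif_pos i.2, dif_pos j.2]
    simp only [nh]; ring
  rw [e3, e4]
  ring

end Pool.Agent.AEU.H96
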