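import Pool.Agent.Helper96_AEU.Lawrence

/-!
The area of a simple polygon as a sum over its vertices.
-/

namespace Pool.Agent.H96A

open MeasureTheory Set Pool.Agent.H62T

variable {ι : Type*}

theorem slice_vol [Fintype ι] {u : ι → ℂ} (hg : Gen u) (hp : ∀ i, (u i).im ≠ 0) {b : ι → ℝ}
    {s : ℝ} (hs : ∀ i j, i ≠ j → s ≠ (vt u b i j).re) :
    (volume {y : ℝ | (⟨s, y⟩ : ℂ) ∈ Q u b}).toReal
      = ∑ i, (Es u b i).indicator (fun s => Real.sign (u i).im * fl u b i s) s := by
  classical
  have key := one_dim (fun i => fl u b i s) (fun i => Real.sign (u i).im)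
    (fun i => sign_eq_or (hp i))
    (by
      obtain ⟨i, hi⟩ := hg.bd Complex.I Complex.I_ne_zero
      exact ⟨i, Real.sign_of_pos (by simpa [ip] using hi)⟩)
    (by
      obtain ⟨i, hi⟩ := hg.bd (-Complex.I) (neg_ne_zero.2 Complex.I_ne_zero)
      exact ⟨i, Real.sign_of_neg (by simpa [ip] using hi)⟩)
    (by
      intro i j _ hij
      by_contra hne
      exact hs i j hne (re_vt_of_fl hp (hg.nd i j hne) hij))
    (fun y => y) (fun _ => 1) (fun y => hasDerivAt_id y) continuous_const
  have hset : {y | Sat (fun i => fl u b i s) (fun i => Real.sign (u i).im) y}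
      = {y : ℝ | (⟨s, y⟩ : ℂ) ∈ Q u b} := by
    ext y; exact sat_slice hp s y
  rw [hset] at key
  rw [setIntegral_const, smul_eq_mul, mul_one] at key
  rw [Measure.real] at key
  rw [key]
  apply Finset.sum_congr rfl
  intro i _
  rw [indicator_apply]
  exact if_congr (sat_slice hp s _) rfl rfl

theorem vol_eq_sum [Fintype ι] {u : ι → ℂ} (hg : Gen u) (hp : ∀ i, (u i).im ≠ 0) (b : ι → ℝ) :
    (volume (Q u b)).toReal = ∑ i, Real.sign (u i).im * ∫ s in Es u b i, fl u b i s := by
  have hQ : MeasurableSet (Q u b) := (isClosed_Q u b).measurableSet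
  have hfin : volume (Q u b) < ⊤ := (bounded_Q hg.bd b).measure_lt_top
  have hmeas : Measurable fun s : ℝ => volume {y : ℝ | (⟨s, y⟩ : ℂ) ∈ Q u b} := by
    have : MeasurableSet {p : ℝ × ℝ | (⟨p.1, p.2⟩ : ℂ) ∈ Q u b} :=
      Complex.measurableEquivRealProd.symm.measurable hQ
    exact measurable_measure_prodMk_left this
  rw [volume_slices hQ] at hfin ⊢
  rw [← integral_toReal hmeas.aemeasurable (ae_lt_top hmeas hfin.ne)]
  have hae : ∀ᵐ s : ℝ, (volume {y : ℝ | (⟨s, y⟩ : ℂ) ∈ Q u b}).toReal
      = ∑ i, (Es u b i).indicator (fun s => Real.sign (u i).im * fl u b i s) s := by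
    have : ∀ᵐ s : ℝ, ∀ i j, i ≠ j → s ≠ (vt u b i j).re := by
      rw [ae_all_iff]; intro i
      rw [ae_all_iff]; intro j
      filter_upwards [(measure_singleton (μ := volume) (vt u b i j).re :
        volume {(vt u b i j).re} = 0) |> compl_mem_ae_iff.2] with s hs _
      exact hs
    filter_upwards [this] with s hs
    exact slice_vol hg hp hs
  rw [integral_congr_ae hae]
  have hint : ∀ i ∈ (Finset.univ : Finset ι), Integrable
      ((Es u b i).indicator (fun s => Real.sign (u i).im * fl u b i s)) volume := by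
    intro i _
    rw [integrable_indicator_iff (isCompact_Es hg b i).measurableSet]
    exact ((continuous_const.mul (continuous_fl u b i)).continuousOn).integrableOn_compact
      (isCompact_Es hg b i)
  rw [integral_finsetSum _ hint]
  apply Finset.sum_congr rfl
  intro i _
  rw [integral_indicator (isCompact_Es hg b i).measurableSet, integral_const_mul]

theorem sign_sign_mul {p d : ℝ} (hp : p ≠ 0) : Real.sign p * Real.sign (d * p) = Real.sign d := by
  rcases lt_trichotomy d 0 with hd | hd | hd <;> rcases lt_or_gt_of_ne hp with h | h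
  · rw [Real.sign_of_neg h, Real.sign_of_pos (mul_pos_of_neg_of_neg hd h), Real.sign_of_neg hd]
    ring
  · rw [Real.sign_of_pos h, Real.sign_of_neg (mul_neg_of_neg_of_pos hd h), Real.sign_of_neg hd]
    ring
  · rw [hd]; simp
  · rw [hd]; simp
  · rw [Real.sign_of_neg h, Real.sign_of_neg (mul_neg_of_pos_of_neg hd h), Real.sign_of_pos hd]
    ring
  · rw [Real.sign_of_pos h, Real.sign_of_pos (mul_pos hd h), Real.sign_of_pos hd]
    ring

/-- contribution of a vertex -/
noncomputable def gg (u : ι → ℂ) (b : ι → ℝ) (i j : ι) : ℝ :=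
  - ((u j).im * b i - (u i).im * b j) ^ 2 / (2 * (u i).im * (u j).im * |dt (u i) (u j)|)

theorem gg_symm (u : ι → ℂ) (b : ι → ℝ) (i j : ι) : gg u b j i = gg u b i j := by
  unfold gg
  have : |dt (u j) (u i)| = |dt (u i) (u j)| := by
    rw [← abs_neg]; congr 1; unfold dt; ring
  rw [this]
  congr 1 <;> ring

open Classical in
/-- the vertex formula for the area -/
theorem lawrence [Fintype ι] {u : ι → ℂ} (hg : Gen u) (hp : ∀ i, (u i).im ≠ 0) {b : ι → ℝ}
    (hs : Simple u b) :
    (volume (Q u b)).toReal = (1 / 2) * ∑ i, ∑ j,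
      if i ≠ j ∧ vt u b i j ∈ Q u b then gg u b i j else 0 := by
  set Ph : ι → ι → ℝ := fun i j =>
    (b i * (vt u b i j).re - (u i).re * (vt u b i j).re ^ 2 / 2) / (u i).im with hPh
  have h1 : (volume (Q u b)).toReal = ∑ i, ∑ j,
      if i ≠ j ∧ vt u b i j ∈ Q u b then Real.sign (dt (u j) (u i)) * Ph i j else 0 := by
    rw [vol_eq_sum hg hp b]
    apply Finset.sum_congr rfl
    intro i _
    rw [integral_Es hg hp hs i, Finset.mul_sum]
    apply Finset.sum_congr rfl
    intro j _
    rw [mul_ite, mul_zero]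
    apply if_congr Iff.rfl _ rfl
    rw [← mul_assoc, sign_sign_mul (hp i)]
  have h2 : (volume (Q u b)).toReal = ∑ i, ∑ j,
      if i ≠ j ∧ vt u b i j ∈ Q u b then Real.sign (dt (u i) (u j)) * Ph j i else 0 := by
    rw [h1, Finset.sum_comm]
    apply Finset.sum_congr rfl
    intro i _
    apply Finset.sum_congr rfl
    intro j _
    by_cases hij : i = j
    · subst hij; simp
    · apply if_congr _ rfl rfl
      rw [vt_symm (hg.nd i j hij)]
      exact ⟨fun h => ⟨hij, h.2⟩, fun h => ⟨fun e => hij e.symm, h.2⟩⟩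
  have h3 : (volume (Q u b)).toReal = (1 / 2) * ((volume (Q u b)).toReal
      + (volume (Q u b)).toReal) := by ring
  rw [h3]
  congr 1
  nth_rewrite 1 [h1]
  rw [h2, ← Finset.sum_add_distrib]
  apply Finset.sum_congr rfl
  intro i _
  rw [← Finset.sum_add_distrib]
  apply Finset.sum_congr rfl
  intro j _
  split_ifs with h
  · obtain ⟨hij, -⟩ := h
    have hd := hg.nd i j hij
    have hd' := hg.nd j i (Ne.symm hij)
    have hdd : dt (u j) (u i) = - dt (u i) (u j) := by unfold dt; ring
    rw [hdd, Real.sign_neg]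
    have hvs : vt u b j i = vt u b i j := vt_symm hd
    have hpi := hp i
    have hpj := hp j
    have h5 : Ph j i - Ph i j = - ((vt u b i j).re ^ 2 / 2) * dt (u i) (u j)
        / ((u i).im * (u j).im) := by
      simp only [hPh]
      rw [hvs]
      have h6 : (vt u b i j).re * dt (u i) (u j) = b i * (u j).im - b j * (u i).im := by
        unfold vt; simp only; rw [div_mul_cancel₀ _ hd]
      have h7 : (b j * (vt u b i j).re - (u j).re * (vt u b i j).re ^ 2 / 2) / (u j).im -
          (b i * (vt u b i j).re - (u i).re * (vt u b i j).re ^ 2 / 2) / (u i).im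
          = (- (vt u b i j).re * (b i * (u j).im - b j * (u i).im)
            + (vt u b i j).re ^ 2 / 2 * dt (u i) (u j)) / ((u i).im * (u j).im) := by
        unfold dt
        field_simp
        ring
      rw [h7, ← h6]
      congr 1
      ring
    have h8 : -Real.sign (dt (u i) (u j)) * Ph i j + Real.sign (dt (u i) (u j)) * Ph j i
        = Real.sign (dt (u i) (u j)) * (Ph j i - Ph i j) := by ring
    rw [h8, h5]
    have h9 : Real.sign (dt (u i) (u j)) * (- ((vt u b i j).re ^ 2 / 2) * dt (u i) (u j)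
        / ((u i).im * (u j).im)) = - (Real.sign (dt (u i) (u j)) * dt (u i) (u j))
          * ((vt u b i j).re ^ 2 / 2) / ((u i).im * (u j).im) := by ring
    rw [h9, sign_mul_self_eq_abs]
    unfold gg vt
    simp only
    rw [div_pow, ← sq_abs (dt (u i) (u j))]
    have : |dt (u i) (u j)| ≠ 0 := abs_ne_zero.2 hd
    field_simp
  · simp

end Pool.Agent.H96A
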