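import Pool.Agent.Helper96_AEU.OneD

/-!
Wall crossing for finitely many affine constraints on the unit interval.
-/

namespace Pool.Agent.H96A

open Set

/-- all the affine constraints hold at `s` -/
def Ok {K : Type*} (α β : K → ℝ) (s : ℝ) : Prop := ∀ k, 0 ≤ α k + β k * s

/-- the constraint `k` becomes an equality at an admissible time in `(0, 1)` -/
def Ev {K : Type*} (α β : K → ℝ) (k : K) : Prop :=
  ∃ s, 0 < s ∧ s < 1 ∧ Ok α β s ∧ α k + β k * s = 0

open Classical in
theorem crossing {K : Type*} [Fintype K] (α β : K → ℝ)
    (h0 : Ok α β 0 → ∀ k, α k ≠ 0) (h1 : Ok α β 1 → ∀ k, α k + β k ≠ 0)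
    (tie : ∀ s, 0 < s → s < 1 → Ok α β s → ∀ k l, α k + β k * s = 0 → α l + β l * s = 0 → k = l) :
    (if Ok α β 1 then (1 : ℝ) else 0) - (if Ok α β 0 then (1 : ℝ) else 0)
      = ∑ k, if Ev α β k then Real.sign (β k) else 0 := by
  by_cases hbad : ∃ k, β k = 0 ∧ α k < 0
  · obtain ⟨k, hk1, hk2⟩ := hbad
    have hno : ∀ s, ¬ Ok α β s := by
      intro s hs
      have := hs k
      rw [hk1] at this
      linarith
    have hnoE : ∀ k, ¬ Ev α β k := by
      rintro k ⟨s, _, _, h3, _⟩
      exact hno s h3
    simp [hno, hnoE]
  · push Not at hbad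
    set t : {k : K // β k ≠ 0} ⊕ Bool → ℝ := Sum.elim (fun k => - α k / β k)
      (fun b => if b then 1 else 0) with ht
    set ε : {k : K // β k ≠ 0} ⊕ Bool → ℝ := Sum.elim (fun k => - Real.sign (β k))
      (fun b => if b then 1 else -1) with hε
    have hεv : ∀ j, ε j = 1 ∨ ε j = -1 := by
      rintro (⟨k, hk⟩ | b)
      · rcases lt_or_gt_of_ne hk with h | h
        · left; simp [hε, Real.sign_of_neg h]
        · right; simp [hε, Real.sign_of_pos h]
      · cases b
        · right; simp [hε]
        · left; simp [hε]
    have hinlsat : ∀ (k : {k : K // β k ≠ 0}) (s : ℝ),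
        ε (Sum.inl k) * (s - t (Sum.inl k)) ≤ 0 ↔ 0 ≤ α k + β k * s := by
      rintro ⟨k, hk⟩ s
      rcases lt_or_gt_of_ne hk with h | h
      · have e : ε (Sum.inl ⟨k, hk⟩) = 1 := by simp [hε, Real.sign_of_neg h]
        have e2 : t (Sum.inl ⟨k, hk⟩) = - α k / β k := by simp [ht]
        rw [e, e2, one_mul, sub_nonpos, le_div_iff_of_neg h]
        constructor <;> intro h' <;> simp only at * <;> nlinarith
      · have e : ε (Sum.inl ⟨k, hk⟩) = -1 := by simp [hε, Real.sign_of_pos h]
        have e2 : t (Sum.inl ⟨k, hk⟩) = - α k / β k := by simp [ht]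
        have : -1 * (s - - α k / β k) ≤ 0 ↔ - α k / β k ≤ s := by
          constructor <;> intro h' <;> linarith
        rw [e, e2, this, div_le_iff₀ h]
        constructor <;> intro h' <;> simp only at * <;> nlinarith
    have hsat : ∀ s, Sat t ε s ↔ 0 ≤ s ∧ s ≤ 1 ∧ Ok α β s := by
      intro s
      constructor
      · intro h
        have a1 := h (Sum.inr true)
        have a2 := h (Sum.inr false)
        simp only [hε, ht, Sum.elim_inr, if_true, Bool.false_eq_true, if_false] at a1 a2
        refine ⟨by linarith, by linarith, fun k => ?_⟩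
        by_cases hk : β k = 0
        · have := hbad k hk
          rw [hk]; linarith
        · exact (hinlsat ⟨k, hk⟩ s).1 (h (Sum.inl ⟨k, hk⟩))
      · rintro ⟨a1, a2, a3⟩ (k | b)
        · exact (hinlsat k s).2 (a3 k)
        · cases b
          · simp only [hε, ht, Sum.elim_inr, Bool.false_eq_true, if_false]; linarith
          · simp only [hε, ht, Sum.elim_inr, if_true]; linarith
    have hroot : ∀ k : {k : K // β k ≠ 0}, α k + β k * t (Sum.inl k) = 0 := by
      rintro ⟨k, hk⟩
      simp only [ht, Sum.elim_inl]
      field_simp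
      ring
    have huniq : ∀ (k : {k : K // β k ≠ 0}) (s : ℝ), α k + β k * s = 0 → s = t (Sum.inl k) := by
      rintro ⟨k, hk⟩ s hs
      simp only [ht, Sum.elim_inl]
      simp only at hs
      field_simp
      linarith
    have hev : ∀ k : {k : K // β k ≠ 0}, Sat t ε (t (Sum.inl k)) →
        0 < t (Sum.inl k) ∧ t (Sum.inl k) < 1 := by
      intro k hs
      obtain ⟨a1, a2, a3⟩ := (hsat _).1 hs
      constructor
      · rcases a1.lt_or_eq with h | h
        · exact h
        · exfalso
          have hr := hroot k
          rw [← h] at a3 hr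
          exact h0 a3 k (by simpa using hr)
      · rcases a2.lt_or_eq with h | h
        · exact h
        · exfalso
          have hr := hroot k
          rw [h] at a3 hr
          exact h1 a3 k (by simpa using hr)
    have hcount := one_dim_count t ε hεv ⟨Sum.inr true, by simp [hε]⟩ ⟨Sum.inr false, by simp [hε]⟩
      (by
        rintro (k | b) (l | c) hs hkl
        · obtain ⟨a1, a2⟩ := hev k hs
          have := tie _ a1 a2 ((hsat _).1 hs).2.2 k l (hroot k) (by rw [hkl]; exact hroot l)
          rw [Subtype.ext this]
        · exfalso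
          obtain ⟨a1, a2⟩ := hev k hs
          cases c
          · simp only [ht, Sum.elim_inr, Bool.false_eq_true, if_false] at hkl a1
            rw [hkl] at a1; exact lt_irrefl _ a1
          · simp only [ht, Sum.elim_inr, if_true] at hkl a2
            rw [hkl] at a2; exact lt_irrefl _ a2
        · exfalso
          rw [hkl] at hs
          obtain ⟨a1, a2⟩ := hev l hs
          cases b
          · simp only [ht, Sum.elim_inr, Bool.false_eq_true, if_false] at hkl a1
            rw [← hkl] at a1; exact lt_irrefl _ a1
          · simp only [ht, Sum.elim_inr, if_true] at hkl a2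
            rw [← hkl] at a2; exact lt_irrefl _ a2
        · cases b <;> cases c <;> simp [ht] at hkl ⊢)
    rw [Fintype.sum_sum_type, Fintype.sum_bool] at hcount
    have e1 : (if Sat t ε (t (Sum.inr true)) then ε (Sum.inr true) else 0)
        = (if Ok α β 1 then (1 : ℝ) else 0) := by
      have : Sat t ε (t (Sum.inr true)) ↔ Ok α β 1 := by
        rw [hsat]; simp [ht]
      have hT : ε (Sum.inr true) = 1 := by simp [hε]
      rw [hT]
      simp only [this]
    have e2 : (if Sat t ε (t (Sum.inr false)) then ε (Sum.inr false) else 0)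
        = - (if Ok α β 0 then (1 : ℝ) else 0) := by
      have : Sat t ε (t (Sum.inr false)) ↔ Ok α β 0 := by
        rw [hsat]; simp [ht]
      have hT : ε (Sum.inr false) = -1 := by simp [hε]
      rw [hT]
      simp only [this]
      split_ifs <;> simp
    have e3 : ∑ k : {k : K // β k ≠ 0}, (if Sat t ε (t (Sum.inl k)) then ε (Sum.inl k) else 0)
        = - ∑ k, if Ev α β k then Real.sign (β k) else 0 := by
      have hE : ∀ k : {k : K // β k ≠ 0}, Sat t ε (t (Sum.inl k)) ↔ Ev α β k := by
        intro k
        constructor
        · intro hs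
          exact ⟨_, (hev k hs).1, (hev k hs).2, ((hsat _).1 hs).2.2, hroot k⟩
        · rintro ⟨s, a1, a2, a3, a4⟩
          rw [← huniq k s a4, hsat]
          exact ⟨a1.le, a2.le, a3⟩
      have hz : ∀ k, β k = 0 → (if Ev α β k then Real.sign (β k) else 0) = 0 := by
        intro k hk
        rw [hk, Real.sign_zero]; split_ifs <;> rfl
      rw [← Finset.sum_neg_distrib]
      rw [← Finset.sum_subset (Finset.subset_univ (Finset.univ.filter fun k => β k ≠ 0))
        (by
          intro x _ hx
          simp only [Finset.mem_filter, Finset.mem_univ, true_and, not_not] at hx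
          rw [hz x hx, neg_zero])]
      rw [Finset.sum_subtype (p := fun k => β k ≠ 0) (Finset.univ.filter fun k => β k ≠ 0)
        (by intro x; simp)]
      apply Finset.sum_congr rfl
      intro k _
      have hT : ε (Sum.inl k) = - Real.sign (β k) := by simp [hε]
      rw [hT]
      simp only [hE k]
      split_ifs <;> simp
    rw [e1, e2, e3] at hcount
    linarith

end Pool.Agent.H96A
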