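import Pool.Agent.Helper96_AEU.Area
import Pool.Agent.Helper96_AEU.Cross

/-!
The death event formula for the area of the inner parallel bodies of a polygon, general form for
straight paths of support numbers.
-/

namespace Pool.Agent.H96A

open MeasureTheory Set Pool.Agent.H62T

variable {ι : Type*}

/-- the support numbers at time `s` -/
def bs (H h : ι → ℝ) (s : ℝ) (i : ι) : ℝ := H i - s * h i

/-- the lines `i, j, k` meet at a point of the polygon at some time in `(0, 1)` -/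
def AA (u : ι → ℂ) (H h : ι → ℝ) (i j k : ι) : Prop :=
  ∃ s : ℝ, 0 < s ∧ s < 1 ∧ ∃ x ∈ Q u (bs H h s),
    ip (u i) x = bs H h s i ∧ ip (u j) x = bs H h s j ∧ ip (u k) x = bs H h s k

/-- no four side lines meet at a point of the polygon at a time in `(0, 1)` -/
def NoTie (u : ι → ℂ) (H h : ι → ℝ) : Prop :=
  ∀ s : ℝ, 0 < s → s < 1 → ∀ x ∈ Q u (bs H h s), ∀ i j k l,
    i ≠ j → i ≠ k → i ≠ l → j ≠ k → j ≠ l → k ≠ l →
    ip (u i) x = bs H h s i → ip (u j) x = bs H h s j → ip (u k) x = bs H h s k →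
    ip (u l) x ≠ bs H h s l

theorem AA_perm {u : ι → ℂ} {H h : ι → ℝ} {i j k : ι} (a : AA u H h i j k) : AA u H h j k i := by
  obtain ⟨s, h0, h1, x, hx, a1, a2, a3⟩ := a
  exact ⟨s, h0, h1, x, hx, a2, a3, a1⟩

theorem Lf_bs (u : ι → ℂ) (H h : ι → ℝ) (s : ℝ) (i j k : ι) :
    Lf u (bs H h s) i j k = Lf u H i j k - s * Lf u h i j k := by
  unfold Lf bs; ring

theorem Lf_rot (u : ι → ℂ) (b : ι → ℝ) (i j k : ι) : Lf u b j k i = Lf u b i j k := by
  unfold Lf; ring

theorem sign_neg_div {L d : ℝ} : Real.sign (-L / d) = -(Real.sign L * Real.sign d) := by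
  rcases lt_trichotomy L 0 with hL | hL | hL <;> rcases lt_trichotomy d 0 with hd | hd | hd
  · rw [Real.sign_of_neg (div_neg_of_pos_of_neg (neg_pos.2 hL) hd), Real.sign_of_neg hL,
      Real.sign_of_neg hd]; ring
  · rw [hd]; simp
  · rw [Real.sign_of_pos (div_pos (neg_pos.2 hL) hd), Real.sign_of_neg hL,
      Real.sign_of_pos hd]; ring
  · rw [hL]; simp
  · rw [hL]; simp
  · rw [hL]; simp
  · rw [Real.sign_of_pos (div_pos_of_neg_of_neg (neg_neg_of_pos hL) hd), Real.sign_of_pos hL,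
      Real.sign_of_neg hd]; ring
  · rw [hd]; simp
  · rw [Real.sign_of_neg (div_neg_of_neg_of_pos (neg_neg_of_pos hL) hd), Real.sign_of_pos hL,
      Real.sign_of_pos hd]; ring

/-- membership of a vertex in terms of the linear forms -/
theorem vt_mem_iff {u : ι → ℂ} {b : ι → ℝ} {i j : ι} (h : dt (u i) (u j) ≠ 0) :
    vt u b i j ∈ Q u b ↔ ∀ k : {k : ι // k ≠ i ∧ k ≠ j}, 0 ≤ Lf u b i j k / dt (u i) (u j) := by
  constructor
  · intro hx k
    rw [← sub_ip_vt _ h]
    have := hx k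
    linarith
  · intro hx k
    by_cases h1 : k = i
    · rw [h1, ip_vt_left h]
    by_cases h2 : k = j
    · rw [h2, ip_vt_right h]
    have := hx ⟨k, h1, h2⟩
    rw [← sub_ip_vt _ h] at this
    simp only at this
    linarith

open Classical in
/-- change of the indicator of a vertex along the path -/
theorem vertex_crossing [Fintype ι] {u : ι → ℂ} {H h : ι → ℝ} (h0 : Simple u H)
    (h1 : Simple u (bs H h 1)) (ht : NoTie u H h) {i j : ι} (hij : i ≠ j)
    (hd : dt (u i) (u j) ≠ 0) :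
    (if vt u (bs H h 1) i j ∈ Q u (bs H h 1) then (1 : ℝ) else 0)
      - (if vt u H i j ∈ Q u H then (1 : ℝ) else 0)
      = ∑ k, if (k ≠ i ∧ k ≠ j) ∧ AA u H h i j k then
          -(Real.sign (Lf u h i j k) * Real.sign (dt (u i) (u j))) else 0 := by
  set α : {k : ι // k ≠ i ∧ k ≠ j} → ℝ := fun k => Lf u H i j k / dt (u i) (u j) with hα
  set β : {k : ι // k ≠ i ∧ k ≠ j} → ℝ := fun k => - Lf u h i j k / dt (u i) (u j) with hβ
  have hab : ∀ (k : {k : ι // k ≠ i ∧ k ≠ j}) (s : ℝ),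
      α k + β k * s = Lf u (bs H h s) i j k / dt (u i) (u j) := by
    intro k s
    rw [Lf_bs]; simp only [hα, hβ]; ring
  have hok : ∀ s, Ok α β s ↔ vt u (bs H h s) i j ∈ Q u (bs H h s) := by
    intro s
    rw [vt_mem_iff hd]
    unfold Ok
    exact forall_congr' fun k => by rw [hab]
  have hb0 : bs H h 0 = H := by funext i; simp [bs]
  have hroot : ∀ (k : {k : ι // k ≠ i ∧ k ≠ j}) (s : ℝ), α k + β k * s = 0 →
      ip (u k) (vt u (bs H h s) i j) = bs H h s k := by
    intro k s hk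
    rw [hab, ← sub_ip_vt _ hd] at hk
    linarith
  have key := crossing α β
    (by
      intro hO k hk
      rw [hok, hb0] at hO
      have hr := hroot k 0 (by rw [hk]; ring)
      rw [hb0] at hr
      exact h0 _ hO i j k hij k.2.1.symm k.2.2.symm (ip_vt_left hd) (ip_vt_right hd) hr)
    (by
      intro hO k hk
      rw [hok] at hO
      have hr := hroot k 1 (by rw [mul_one]; exact hk)
      exact h1 _ hO i j k hij k.2.1.symm k.2.2.symm (ip_vt_left hd) (ip_vt_right hd) hr)
    (by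
      intro s hs0 hs1 hO k l hk hl
      rw [hok] at hO
      by_contra hne
      have hkl : (k : ι) ≠ l := fun e => hne (Subtype.ext e)
      exact ht s hs0 hs1 _ hO i j k l hij k.2.1.symm l.2.1.symm k.2.2.symm l.2.2.symm hkl
        (ip_vt_left hd) (ip_vt_right hd) (hroot k s hk) (hroot l s hl))
  have e1 : Ok α β 1 ↔ vt u (bs H h 1) i j ∈ Q u (bs H h 1) := hok 1
  have e0 : Ok α β 0 ↔ vt u H i j ∈ Q u H := by rw [hok 0, hb0]
  simp only [e1, e0] at key
  rw [key]
  have hE : ∀ k : {k : ι // k ≠ i ∧ k ≠ j}, Ev α β k ↔ AA u H h i j k := by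
    intro k
    constructor
    · rintro ⟨s, a1, a2, a3, a4⟩
      exact ⟨s, a1, a2, _, (hok s).1 a3, ip_vt_left hd, ip_vt_right hd, hroot k s a4⟩
    · rintro ⟨s, a1, a2, x, hx, b1, b2, b3⟩
      have hxv := eq_vt hd b1 b2
      rw [hxv] at hx b3
      refine ⟨s, a1, a2, (hok s).2 hx, ?_⟩
      rw [hab, ← sub_ip_vt _ hd, b3]; ring
  rw [← Finset.sum_subset (Finset.subset_univ (Finset.univ.filter fun k => k ≠ i ∧ k ≠ j))
    (by
      intro x _ hx
      simp only [Finset.mem_filter, Finset.mem_univ, true_and] at hx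
      rw [if_neg]
      rintro ⟨h, -⟩
      exact hx h)]
  rw [Finset.sum_subtype (p := fun k => k ≠ i ∧ k ≠ j)
    (Finset.univ.filter fun k => k ≠ i ∧ k ≠ j) (by intro x; simp)]
  apply Finset.sum_congr rfl
  intro k _
  have : ((k : ι) ≠ i ∧ (k : ι) ≠ j) ∧ AA u H h i j k ↔ Ev α β k := by
    rw [hE]; exact ⟨fun h => h.2, fun h => ⟨k.2, h⟩⟩
  rw [if_congr this rfl rfl]
  simp only [hβ, sign_neg_div]

/-- the algebraic identity for three lines -/
theorem alg_id {bi bj bk pi pj pk ci cj ck : ℝ} (h : ci * pi + cj * pj + ck * pk = 0)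
    (hpi : pi ≠ 0) (hpj : pj ≠ 0) (hpk : pk ≠ 0) (hci : ci ≠ 0) (hcj : cj ≠ 0) (hck : ck ≠ 0) :
    -(pj * bi - pi * bj) ^ 2 / (2 * pi * pj * ck) + -(pk * bj - pj * bk) ^ 2 / (2 * pj * pk * ci)
      + -(pi * bk - pk * bi) ^ 2 / (2 * pk * pi * cj)
      = (ci * bi + cj * bj + ck * bk) ^ 2 / (2 * (ck * ci * cj)) := by
  rw [div_add_div _ _ (by positivity) (by positivity), div_add_div _ _ (by positivity)
    (by positivity), div_eq_div_iff (by positivity) (by positivity)]
  linear_combination (-(8 * pi * pj * pk * ci * cj * ck)) *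
    (ci * pj * pk * bi ^ 2 + cj * pk * pi * bj ^ 2 + ck * pi * pj * bk ^ 2) * h

/-- the three lines are different and have a death event in `(0, 1)` -/
def A3 (u : ι → ℂ) (H h : ι → ℝ) (i j k : ι) : Prop :=
  (i ≠ j ∧ k ≠ i ∧ k ≠ j) ∧ AA u H h i j k

theorem A3_rot {u : ι → ℂ} {H h : ι → ℝ} {i j k : ι} : A3 u H h j k i ↔ A3 u H h i j k := by
  constructor
  · rintro ⟨⟨a, b, c⟩, d⟩
    exact ⟨⟨b, c.symm, a.symm⟩, AA_perm (AA_perm d)⟩
  · rintro ⟨⟨a, b, c⟩, d⟩
    exact ⟨⟨c.symm, a, b.symm⟩, AA_perm d⟩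

/-- contribution of a triple -/
noncomputable def zz (u : ι → ℂ) (h b : ι → ℝ) (i j k : ι) : ℝ :=
  -(Real.sign (Lf u h i j k)) * (Lf u b i j k ^ 2 /
    (2 * (dt (u i) (u j) * dt (u j) (u k) * dt (u k) (u i))))

theorem sign_mul_gg {u : ι → ℂ} {b : ι → ℝ} {i j : ι} (hd : dt (u i) (u j) ≠ 0) :
    Real.sign (dt (u i) (u j)) * gg u b i j =
      - ((u j).im * b i - (u i).im * b j) ^ 2 / (2 * (u i).im * (u j).im * dt (u i) (u j)) := by
  unfold gg
  rcases lt_or_gt_of_ne hd with h | h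
  · rw [Real.sign_of_neg h, abs_of_neg h]
    rw [mul_neg, div_neg]; ring
  · rw [Real.sign_of_pos h, abs_of_pos h, one_mul]

theorem cyc_id {u : ι → ℂ} (hg : Gen u) (hp : ∀ i, (u i).im ≠ 0) (b : ι → ℝ) {i j k : ι}
    (hij : i ≠ j) (hki : k ≠ i) (hkj : k ≠ j) :
    Real.sign (dt (u i) (u j)) * gg u b i j + Real.sign (dt (u j) (u k)) * gg u b j k
      + Real.sign (dt (u k) (u i)) * gg u b k i
      = Lf u b i j k ^ 2 / (2 * (dt (u i) (u j) * dt (u j) (u k) * dt (u k) (u i))) := by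
  rw [sign_mul_gg (hg.nd i j hij), sign_mul_gg (hg.nd j k hkj.symm), sign_mul_gg (hg.nd k i hki)]
  unfold Lf
  refine alg_id ?_ (hp i) (hp j) (hp k) (hg.nd j k hkj.symm) (hg.nd k i hki) (hg.nd i j hij)
  unfold dt; ring

open Classical in
/-- the death event formula, all side lines not parallel to the imaginary axis -/
theorem death_aux [Fintype ι] {u : ι → ℂ} (hg : Gen u) (hp : ∀ i, (u i).im ≠ 0) {H h : ι → ℝ}
    (h0 : Simple u H) (h1 : Simple u (bs H h 1)) (ht : NoTie u H h) :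
    (volume (Q u (bs H h 1))).toReal =
      (1 / 2) * (∑ i, ∑ j, if i ≠ j ∧ vt u H i j ∈ Q u H then gg u (bs H h 1) i j else 0)
      + (1 / 6) * ∑ i, ∑ j, ∑ k, if A3 u H h i j k then zz u h (bs H h 1) i j k else 0 := by
  set b := bs H h 1 with hb
  set f : ι → ι → ι → ℝ := fun i j k => if A3 u H h i j k then
    -(Real.sign (Lf u h i j k)) * (Real.sign (dt (u i) (u j)) * gg u b i j) else 0 with hf
  have hT : ∑ i, ∑ j, ∑ k, f i j k =
      (∑ i, ∑ j, if i ≠ j ∧ vt u b i j ∈ Q u b then gg u b i j else 0)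
      - ∑ i, ∑ j, if i ≠ j ∧ vt u H i j ∈ Q u H then gg u b i j else 0 := by
    rw [← Finset.sum_sub_distrib]
    apply Finset.sum_congr rfl
    intro i _
    rw [← Finset.sum_sub_distrib]
    apply Finset.sum_congr rfl
    intro j _
    by_cases hij : i = j
    · subst hij
      simp [hf, A3]
    · have hv := vertex_crossing h0 h1 ht hij (hg.nd i j hij)
      rw [← hb] at hv
      have e1 : (if i ≠ j ∧ vt u b i j ∈ Q u b then gg u b i j else 0)
          - (if i ≠ j ∧ vt u H i j ∈ Q u H then gg u b i j else 0)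
          = ((if vt u b i j ∈ Q u b then (1 : ℝ) else 0)
            - (if vt u H i j ∈ Q u H then (1 : ℝ) else 0)) * gg u b i j := by
        have hne : i ≠ j := hij
        simp only [hne, ne_eq, not_false_eq_true, true_and]
        split_ifs <;> ring
      rw [e1, hv, Finset.sum_mul]
      apply Finset.sum_congr rfl
      intro k _
      have hne : i ≠ j := hij
      simp only [hf, A3, hne, ne_eq, not_false_eq_true, true_and]
      split_ifs <;> ring
  have hrot : ∀ g : ι → ι → ι → ℝ, ∑ i, ∑ j, ∑ k, g j k i = ∑ i, ∑ j, ∑ k, g i j k := by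
    intro g
    rw [Finset.sum_comm]
    apply Finset.sum_congr rfl
    intro j _
    rw [Finset.sum_comm]
  have h3 : 3 * ∑ i, ∑ j, ∑ k, f i j k
      = ∑ i, ∑ j, ∑ k, if A3 u H h i j k then zz u h b i j k else 0 := by
    have e1 := hrot f
    have e2 := hrot (fun i j k => f j k i)
    have e3 : 3 * ∑ i, ∑ j, ∑ k, f i j k = ∑ i, ∑ j, ∑ k, f i j k + ∑ i, ∑ j, ∑ k, f j k i
        + ∑ i, ∑ j, ∑ k, f k i j := by
      rw [e1]
      have : ∑ i, ∑ j, ∑ k, f k i j = ∑ i, ∑ j, ∑ k, f i j k := by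
        rw [← e1, ← e2]
      rw [this]; ring
    rw [e3, ← Finset.sum_add_distrib, ← Finset.sum_add_distrib]
    apply Finset.sum_congr rfl
    intro i _
    rw [← Finset.sum_add_distrib, ← Finset.sum_add_distrib]
    apply Finset.sum_congr rfl
    intro j _
    rw [← Finset.sum_add_distrib, ← Finset.sum_add_distrib]
    apply Finset.sum_congr rfl
    intro k _
    simp only [hf]
    have r1 : A3 u H h j k i ↔ A3 u H h i j k := A3_rot
    have r2 : A3 u H h k i j ↔ A3 u H h i j k := A3_rot.symm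
    rw [if_congr r1 rfl rfl, if_congr r2 rfl rfl]
    split_ifs with hA
    · obtain ⟨⟨a, c, d⟩, -⟩ := hA
      unfold zz
      rw [← cyc_id hg hp b a c d, Lf_rot u h i j k, show Lf u h k i j = Lf u h i j k from
        (Lf_rot u h k i j).symm]
      ring
    · ring
  rw [lawrence hg hp h1, ← h3, hT]
  ring

end Pool.Agent.H96A
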