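import Pool.Agent.Helper96_AEU.Death

/-!
The death event formula, general position of the axes and of the endpoint removed.
-/

namespace Pool.Agent.H96A

open MeasureTheory Set Pool.Agent.H62T Filter Topology

variable {ι : Type*}

/-! ### Rotation -/

theorem exists_rot [Finite ι] {u : ι → ℂ} (hu : ∀ i, u i ≠ 0) :
    ∃ c : Circle, ∀ i, ((c : ℂ) * u i).im ≠ 0 := by
  have hfin : (⋃ i, {a : ℝ | a * (u i).im + (u i).re = 0}).Finite := by
    apply Set.finite_iUnion
    intro i
    apply Set.Subsingleton.finite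
    intro a ha a' ha'
    simp only [mem_ofPred_eq] at ha ha'
    by_cases h : (u i).im = 0
    · exfalso
      rw [h] at ha
      apply hu i
      apply Complex.ext
      · simpa using ha
      · simpa using h
    · have : (a - a') * (u i).im = 0 := by linarith
      rcases mul_eq_zero.1 this with h' | h'
      · linarith
      · exact absurd h' h
  obtain ⟨a, -, ha⟩ := (Set.infinite_univ (α := ℝ)).exists_notMem_finset hfin.toFinset
  have ha' : ∀ i, a * (u i).im + (u i).re ≠ 0 := by
    intro i h
    apply ha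
    rw [Set.Finite.mem_toFinset]
    exact mem_iUnion.2 ⟨i, h⟩
  set z : ℂ := ⟨a, 1⟩ with hz
  have hz0 : z ≠ 0 := by
    intro h
    have := congrArg Complex.im h
    simp [hz] at this
  have hn : 0 < ‖z‖ := norm_pos_iff.2 hz0
  have hmem : z / (‖z‖ : ℂ) ∈ Submonoid.unitSphere ℂ := by
    change z / (‖z‖ : ℂ) ∈ Metric.sphere (0 : ℂ) 1
    rw [mem_sphere_zero_iff_norm, norm_div, Complex.norm_real, norm_norm, div_self hn.ne']
  refine ⟨⟨z / (‖z‖ : ℂ), hmem⟩, ?_⟩
  · intro i
    have e : (z / (‖z‖ : ℂ) * u i).im = (a * (u i).im + (u i).re) / ‖z‖ := by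
      rw [div_mul_eq_mul_div, Complex.div_ofReal_im]
      simp only [hz, Complex.mul_im, one_mul]
    simp only
    rw [e]
    exact div_ne_zero (ha' i) hn.ne'

theorem ip_rot (c : Circle) (z w : ℂ) : ip ((c : ℂ) * z) ((c : ℂ) * w) = ip z w := by
  have h := Circle.normSq_coe c
  rw [Complex.normSq_apply] at h
  unfold ip
  simp only [Complex.mul_re, Complex.mul_im]
  linear_combination (z.re * w.re + z.im * w.im) * h

theorem dt_rot (c : Circle) (z w : ℂ) : dt ((c : ℂ) * z) ((c : ℂ) * w) = dt z w := by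
  have h := Circle.normSq_coe c
  rw [Complex.normSq_apply] at h
  unfold dt
  simp only [Complex.mul_re, Complex.mul_im]
  linear_combination (z.re * w.im - z.im * w.re) * h

theorem mem_Q_rot (c : Circle) {u : ι → ℂ} {b : ι → ℝ} {x : ℂ} :
    (c : ℂ) * x ∈ Q (fun i => (c : ℂ) * u i) b ↔ x ∈ Q u b := by
  unfold Q
  simp only [mem_ofPred_eq, ip_rot]

theorem exists_eq_rot (c : Circle) (x : ℂ) : ∃ y : ℂ, x = (c : ℂ) * y :=
  ⟨(c : ℂ)⁻¹ * x, by rw [mul_inv_cancel_left₀ (Circle.coe_ne_zero c)]⟩

theorem volume_Q_rot [Finite ι] (c : Circle) (u : ι → ℂ) (b : ι → ℝ) :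
    volume (Q (fun i => (c : ℂ) * u i) b) = volume (Q u b) := by
  have h1 := ((rotation c).measurePreserving).measure_preimage
    (isClosed_Q (fun i => (c : ℂ) * u i) b).measurableSet.nullMeasurableSet
  rw [← h1]
  congr 1
  ext x
  simp only [mem_preimage, rotation_apply]
  exact mem_Q_rot c

theorem gen_rot (c : Circle) {u : ι → ℂ} (hg : Gen u) : Gen fun i => (c : ℂ) * u i := by
  constructor
  · intro i j hij
    simp only [dt_rot]
    exact hg.nd i j hij
  · intro w hw
    obtain ⟨y, rfl⟩ := exists_eq_rot c w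
    have hy : y ≠ 0 := by
      rintro rfl; simp at hw
    obtain ⟨i, hi⟩ := hg.bd y hy
    exact ⟨i, by simpa only [ip_rot] using hi⟩

theorem simple_rot (c : Circle) {u : ι → ℂ} {b : ι → ℝ} (hs : Simple u b) :
    Simple (fun i => (c : ℂ) * u i) b := by
  intro x hx i j k hij hik hjk h1 h2
  obtain ⟨y, rfl⟩ := exists_eq_rot c x
  simp only [ip_rot] at h1 h2 ⊢
  exact hs y ((mem_Q_rot c).1 hx) i j k hij hik hjk h1 h2

theorem noTie_rot (c : Circle) {u : ι → ℂ} {H h : ι → ℝ} (hs : NoTie u H h) :
    NoTie (fun i => (c : ℂ) * u i) H h := by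
  intro s h0 h1 x hx i j k l hij hik hil hjk hjl hkl e1 e2 e3
  obtain ⟨y, rfl⟩ := exists_eq_rot c x
  simp only [ip_rot] at e1 e2 e3 ⊢
  exact hs s h0 h1 y ((mem_Q_rot c).1 hx) i j k l hij hik hil hjk hjl hkl e1 e2 e3

theorem A3_rotate (c : Circle) {u : ι → ℂ} {H h : ι → ℝ} {i j k : ι} :
    A3 (fun i => (c : ℂ) * u i) H h i j k ↔ A3 u H h i j k := by
  unfold A3 AA
  apply and_congr Iff.rfl
  constructor
  · rintro ⟨s, h0, h1, x, hx, e1, e2, e3⟩
    obtain ⟨y, rfl⟩ := exists_eq_rot c x
    simp only [ip_rot] at e1 e2 e3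
    exact ⟨s, h0, h1, y, (mem_Q_rot c).1 hx, e1, e2, e3⟩
  · rintro ⟨s, h0, h1, y, hx, e1, e2, e3⟩
    refine ⟨s, h0, h1, (c : ℂ) * y, (mem_Q_rot c).2 hx, ?_⟩
    simp only [ip_rot]
    exact ⟨e1, e2, e3⟩

theorem Lf_rotate (c : Circle) (u : ι → ℂ) (b : ι → ℝ) (i j k : ι) :
    Lf (fun i => (c : ℂ) * u i) b i j k = Lf u b i j k := by
  unfold Lf; simp only [dt_rot]

theorem zz_rotate (c : Circle) (u : ι → ℂ) (h b : ι → ℝ) (i j k : ι) :
    zz (fun i => (c : ℂ) * u i) h b i j k = zz u h b i j k := by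
  unfold zz; simp only [dt_rot, Lf_rotate]

/-! ### Quadratic polynomials -/

/-- quadratic polynomials in finitely many variables -/
def IsQ [Fintype ι] (W : (ι → ℝ) → ℝ) : Prop :=
  ∃ (w0 : ℝ) (w1 : ι → ℝ) (w2 : ι → ι → ℝ),
    ∀ h, W h = w0 + ∑ i, w1 i * h i + ∑ i, ∑ j, w2 i j * h i * h j

theorem isQ_zero [Fintype ι] : IsQ fun _ : ι → ℝ => 0 :=
  ⟨0, 0, 0, fun h => by simp⟩

theorem isQ_add [Fintype ι] {V W : (ι → ℝ) → ℝ} (hV : IsQ V) (hW : IsQ W) :
    IsQ fun h => V h + W h := by
  obtain ⟨v0, v1, v2, hv⟩ := hV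
  obtain ⟨w0, w1, w2, hw⟩ := hW
  refine ⟨v0 + w0, v1 + w1, v2 + w2, fun h => ?_⟩
  simp only
  rw [hv, hw]
  simp only [Pi.add_apply, add_mul, Finset.sum_add_distrib]
  ring

theorem isQ_const_mul [Fintype ι] {V : (ι → ℝ) → ℝ} (hV : IsQ V) (c : ℝ) :
    IsQ fun h => c * V h := by
  obtain ⟨v0, v1, v2, hv⟩ := hV
  refine ⟨c * v0, fun i => c * v1 i, fun i j => c * v2 i j, fun h => ?_⟩
  simp only
  rw [hv, mul_add, mul_add, Finset.mul_sum, Finset.mul_sum]
  congr 1
  · congr 1
    apply Finset.sum_congr rfl; intro i _; ring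
  · apply Finset.sum_congr rfl; intro i _
    rw [Finset.mul_sum]
    apply Finset.sum_congr rfl; intro j _; ring

theorem isQ_sum [Fintype ι] {κ : Type*} (S : Finset κ) {V : κ → (ι → ℝ) → ℝ}
    (hV : ∀ k ∈ S, IsQ (V k)) : IsQ fun h => ∑ k ∈ S, V k h := by
  classical
  induction S using Finset.induction_on with
  | empty => simpa using isQ_zero
  | insert a S ha ih =>
    have := isQ_add (hV a (Finset.mem_insert_self a S))
      (ih fun k hk => hV k (Finset.mem_insert_of_mem hk))
    simpa [Finset.sum_insert ha] using this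

theorem isQ_sq [Fintype ι] [DecidableEq ι] (m0 p q : ℝ) (i j : ι) :
    IsQ fun h : ι → ℝ => (m0 + p * h i + q * h j) ^ 2 := by
  set m : ι → ℝ := fun k => (if k = i then p else 0) + (if k = j then q else 0) with hm
  refine ⟨m0 ^ 2, fun k => 2 * m0 * m k, fun k l => m k * m l, fun h => ?_⟩
  have e : ∑ k, m k * h k = p * h i + q * h j := by
    simp only [hm, add_mul, Finset.sum_add_distrib, ite_mul, zero_mul, Finset.sum_ite_eq',
      Finset.mem_univ, if_true]
  have e2 : ∑ k, ∑ l, m k * m l * h k * h l = (∑ k, m k * h k) ^ 2 := by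
    rw [sq, Finset.sum_mul]
    apply Finset.sum_congr rfl; intro k _
    rw [Finset.mul_sum]
    apply Finset.sum_congr rfl; intro l _; ring
  have e3 : ∑ k, 2 * m0 * m k * h k = 2 * m0 * ∑ k, m k * h k := by
    rw [Finset.mul_sum]
    apply Finset.sum_congr rfl; intro k _; ring
  rw [e2, e3, e]
  ring

theorem isQ_gg [Fintype ι] (u : ι → ℂ) (H : ι → ℝ) (i j : ι) :
    IsQ fun h => gg u (bs H h 1) i j := by
  classical
  have h1 := isQ_const_mul (isQ_sq ((u j).im * H i - (u i).im * H j) (-(u j).im) (u i).im i j)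
    (-(2 * (u i).im * (u j).im * |dt (u i) (u j)|)⁻¹)
  convert h1 using 2 with h
  unfold gg bs
  rw [div_eq_mul_inv]
  ring

/-! ### Exceptional times -/

theorem noTie_smul {u : ι → ℂ} {H h : ι → ℝ} (ht : NoTie u H h) {s : ℝ} (hs0 : 0 < s)
    (hs1 : s ≤ 1) : NoTie u H (fun i => s * h i) := by
  intro r hr0 hr1 x hx i j k l hij hik hil hjk hjl hkl
  have e : bs H (fun i => s * h i) r = bs H h (r * s) := by
    funext i; unfold bs; ring
  rw [e] at hx ⊢
  exact ht (r * s) (mul_pos hr0 hs0) (by nlinarith) x hx i j k l hij hik hil hjk hjl hkl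

/-- outside of a finite set of times the polygon is simple -/
theorem simple_of_not_mem [Fintype ι] {u : ι → ℂ} (hg : Gen u) {H h : ι → ℝ} (h0 : Simple u H)
    (ht : NoTie u H h) {s : ℝ} (hs0 : 0 < s) (hs1 : s < 1)
    (hs : ∀ i j k, Lf u h i j k ≠ 0 → s ≠ Lf u H i j k / Lf u h i j k) : Simple u (bs H h s) := by
  intro x hx i j k hij hik hjk e1 e2 e3
  have hd := hg.nd i j hij
  have hxv := eq_vt hd e1 e2
  have hL : Lf u (bs H h s) i j k = 0 := by
    have := sub_ip_vt (b := bs H h s) k hd
    rw [← hxv, e3, sub_self, eq_comm, div_eq_zero_iff] at this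
    exact this.resolve_right hd
  rw [Lf_bs] at hL
  by_cases hLh : Lf u h i j k = 0
  · have hLH : Lf u H i j k = 0 := by rw [hLh] at hL; linarith
    set α : ι → ℝ := fun l => Lf u H i j l / dt (u i) (u j) with hα
    set β : ι → ℝ := fun l => - Lf u h i j l / dt (u i) (u j) with hβ
    have hab : ∀ (l : ι) (r : ℝ), α l + β l * r =
        bs H h r l - ip (u l) (vt u (bs H h r) i j) := by
      intro l r
      rw [sub_ip_vt _ hd, Lf_bs]; simp only [hα, hβ]; ring
    have hs' : ∀ l, 0 ≤ α l + β l * s := by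
      intro l
      rw [hab, ← hxv]
      have := hx l
      linarith
    have hk0 : ∀ r, α k + β k * r = 0 := by
      intro r
      simp only [hα, hβ, hLh, hLH]; simp
    obtain ⟨l0, hl0⟩ : ∃ l, α l < 0 := by
      by_contra hcon
      push Not at hcon
      have hb0 : bs H h 0 = H := by funext i; simp [bs]
      have hm : vt u H i j ∈ Q u H := by
        intro l
        have := hab l 0
        rw [hb0] at this
        have := hcon l
        linarith
      apply h0 _ hm i j k hij hik hjk (ip_vt_left hd) (ip_vt_right hd)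
      have h1 := hab k 0
      rw [hb0, hk0] at h1
      linarith
    have hne : (Finset.univ.filter fun l => α l < 0).Nonempty := ⟨l0, by simp [hl0]⟩
    obtain ⟨l, hl, hmax⟩ := Finset.exists_max_image (Finset.univ.filter fun l => α l < 0)
      (fun l => - α l / β l) hne
    simp only [Finset.mem_filter, Finset.mem_univ, true_and] at hl hmax
    have hβpos : ∀ m, α m < 0 → 0 < β m := by
      intro m hm
      have := hs' m
      by_contra hb
      push Not at hb
      nlinarith
    set r := - α l / β l with hr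
    have hr0 : 0 < r := div_pos (neg_pos.2 hl) (hβpos l hl)
    have hrs : r ≤ s := by
      rw [hr, div_le_iff₀ (hβpos l hl)]
      have := hs' l
      linarith
    have hrl : α l + β l * r = 0 := by
      have := (hβpos l hl).ne'
      rw [hr]; field_simp; ring
    have hmem : vt u (bs H h r) i j ∈ Q u (bs H h r) := by
      intro m
      have e := hab m r
      have : 0 ≤ α m + β m * r := by
        by_cases hm : α m < 0
        · have h1 := hmax m hm
          rw [div_le_iff₀ (hβpos m hm)] at h1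
          linarith
        · push Not at hm
          have h1 := hs' m
          rcases le_total 0 (β m) with hb | hb
          · have := mul_nonneg hb hr0.le
            linarith
          · have := mul_le_mul_of_nonpos_left hrs hb
            linarith
      linarith
    have hlk : l ≠ k := by
      rintro rfl
      have := hk0 0
      simp at this
      rw [this] at hl
      exact lt_irrefl _ hl
    have hli : l ≠ i := by
      rintro rfl
      have := hab l 0
      rw [ip_vt_left hd] at this
      simp at this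
      rw [this] at hl
      exact lt_irrefl _ hl
    have hlj : l ≠ j := by
      rintro rfl
      have := hab l 0
      rw [ip_vt_right hd] at this
      simp at this
      rw [this] at hl
      exact lt_irrefl _ hl
    refine ht r hr0 (hrs.trans_lt hs1) _ hmem i j k l hij hik hli.symm hjk hlj.symm hlk.symm
      (ip_vt_left hd) (ip_vt_right hd) ?_ ?_
    · have := hab k r
      rw [hk0] at this
      linarith
    · have := hab l r
      rw [hrl] at this
      linarith
  · exact hs i j k hLh (by rw [eq_div_iff hLh]; linarith)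

end Pool.Agent.H96A
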