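import Pool.Agent.Helper96_AEU.Death2

/-!
The death event formula: final general form.
-/

namespace Pool.Agent.H96A

open MeasureTheory Set Pool.Agent.H62T Filter Topology

variable {ι : Type*}

theorem volume_line {u : ℂ} (hu : u ≠ 0) (r : ℝ) : volume {x : ℂ | ip u x = r} = 0 := by
  set L : ℂ →ₗ[ℝ] ℝ :=
    { toFun := ip u
      map_add' := fun x y => by simp only [ip, Complex.add_re, Complex.add_im]; ring
      map_smul' := fun s y => by
        simp only [ip, Complex.smul_re, Complex.smul_im, smul_eq_mul, RingHom.id_apply]; ring }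
    with hL
  have hLa : ∀ x, L x = ip u x := fun x => rfl
  have huu : 0 < ip u u := by
    unfold ip
    by_contra h
    push Not at h
    apply hu
    apply Complex.ext
    · simp only [Complex.zero_re]; nlinarith [mul_self_nonneg u.re, mul_self_nonneg u.im]
    · simp only [Complex.zero_im]; nlinarith [mul_self_nonneg u.re, mul_self_nonneg u.im]
  set x0 : ℂ := (r / ip u u) • u with hx0
  have hx0' : L x0 = r := by
    rw [hx0, map_smul, hLa, smul_eq_mul, div_mul_cancel₀ _ huu.ne']
  have h1 : {x : ℂ | ip u x = r} = (fun x => x + -x0) ⁻¹' (LinearMap.ker L : Set ℂ) := by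
    ext x
    simp only [Set.mem_preimage, SetLike.mem_coe, LinearMap.mem_ker, Set.mem_ofPred_eq]
    rw [map_add, map_neg, hx0', hLa]
    constructor
    · intro h; rw [h]; ring
    · intro h; linarith
  rw [h1, measure_preimage_add_right]
  apply Measure.addHaar_submodule
  intro htop
  have : u ∈ (LinearMap.ker L) := by rw [htop]; trivial
  rw [LinearMap.mem_ker, hLa] at this
  rw [this] at huu
  exact lt_irrefl _ huu

theorem ne_zero_of_gen [Fintype ι] {u : ι → ℂ} (hg : Gen u) (i : ι) : u i ≠ 0 := by
  intro h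
  obtain ⟨j, hj⟩ := hg.bd 1 one_ne_zero
  by_cases hij : i = j
  · rw [← hij, h] at hj
    simp [ip] at hj
  · apply hg.nd i j hij
    rw [h]; simp [dt]

/-- the area depends continuously on the time -/
theorem tendsto_vol [Fintype ι] {u : ι → ℂ} (hg : Gen u) (H h : ι → ℝ) :
    Tendsto (fun s => (volume (Q u (bs H h s))).toReal) (𝓝[<] 1)
      (𝓝 (volume (Q u (bs H h 1))).toReal) := by
  have hfin : volume (Q u fun i => |H i| + |h i|) ≠ ⊤ := (bounded_Q hg.bd _).measure_lt_top.ne
  have hsub : ∀ s, 0 ≤ s → s ≤ 1 → Q u (bs H h s) ⊆ Q u fun i => |H i| + |h i| := by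
    intro s hs0 hs1 x hx i
    have h1 := hx i
    unfold bs at h1
    have h2 := le_abs_self (H i)
    have h3 : - (s * h i) ≤ |h i| := by
      calc - (s * h i) ≤ |s * h i| := neg_le_abs _
        _ = s * |h i| := by rw [abs_mul, abs_of_nonneg hs0]
        _ ≤ 1 * |h i| := mul_le_mul_of_nonneg_right hs1 (abs_nonneg _)
        _ = |h i| := one_mul _
    simp only
    linarith
  have hlim : Tendsto (fun s => volume (Q u (bs H h s))) (𝓝[<] 1) (𝓝 (volume (Q u (bs H h 1)))) := by
    refine tendsto_measure_of_ae_tendsto_indicator (𝓝[<] (1 : ℝ))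
      (isClosed_Q u _).measurableSet (fun s => (isClosed_Q u _).measurableSet)
      (isClosed_Q u fun i => |H i| + |h i|).measurableSet hfin ?_ ?_
    · have : ∀ᶠ s in 𝓝[<] (1 : ℝ), s ∈ Ioo (0 : ℝ) 1 := Ioo_mem_nhdsLT zero_lt_one
      filter_upwards [this] with s hs
      exact hsub s hs.1.le hs.2.le
    · have hae : ∀ᵐ x : ℂ, ∀ i, ip (u i) x ≠ bs H h 1 i := by
        rw [ae_all_iff]
        intro i
        exact compl_mem_ae_iff.2 (volume_line (ne_zero_of_gen hg i) _)
      filter_upwards [hae] with x hx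
      have hcont : ∀ i, Tendsto (fun s => bs H h s i) (𝓝[<] 1) (𝓝 (bs H h 1 i)) := by
        intro i
        have : Continuous fun s => bs H h s i := by unfold bs; fun_prop
        exact this.continuousAt.tendsto.mono_left nhdsWithin_le_nhds
      have hev : ∀ i, ∀ᶠ s in 𝓝[<] (1 : ℝ), (ip (u i) x ≤ bs H h s i ↔ ip (u i) x ≤ bs H h 1 i) := by
        intro i
        rcases lt_or_gt_of_ne (hx i) with h1 | h1
        · filter_upwards [(hcont i).eventually (lt_mem_nhds h1)] with s hs
          exact ⟨fun _ => h1.le, fun _ => hs.le⟩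
        · filter_upwards [(hcont i).eventually (gt_mem_nhds h1)] with s hs
          exact ⟨fun h => absurd h (not_le.2 hs), fun h => absurd h (not_le.2 h1)⟩
      have hall : ∀ᶠ s in 𝓝[<] (1 : ℝ), ∀ i, (ip (u i) x ≤ bs H h s i ↔ ip (u i) x ≤ bs H h 1 i) :=
        eventually_all.2 hev
      filter_upwards [hall] with s hs
      exact forall_congr' hs
  exact (ENNReal.tendsto_toReal (bounded_Q hg.bd _).measure_lt_top.ne).comp hlim

open Classical in
/-- the death event formula for a fixed rotation of the axes -/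
theorem death_lim [Fintype ι] {u : ι → ℂ} (hg : Gen u) (hp : ∀ i, (u i).im ≠ 0) {H h : ι → ℝ}
    (h0 : Simple u H) (ht : NoTie u H h) :
    (volume (Q u (bs H h 1))).toReal =
      (1 / 2) * (∑ i, ∑ j, if i ≠ j ∧ vt u H i j ∈ Q u H then gg u (bs H h 1) i j else 0)
      + (1 / 6) * ∑ i, ∑ j, ∑ k, if A3 u H h i j k then zz u h (bs H h 1) i j k else 0 := by
  set F : ℝ → ℝ := fun s =>
      (1 / 2) * (∑ i, ∑ j, if i ≠ j ∧ vt u H i j ∈ Q u H then gg u (bs H h s) i j else 0)
      + (1 / 6) * ∑ i, ∑ j, ∑ k, if A3 u H h i j k then zz u h (bs H h s) i j k else 0 with hF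
  have hFc : Continuous F := by
    rw [hF]
    have hbs : ∀ i, Continuous fun s => bs H h s i := fun i => by unfold bs; fun_prop
    have hgg : ∀ i j, Continuous fun s => gg u (bs H h s) i j := fun i j => by
      unfold gg
      have := hbs i; have := hbs j
      fun_prop
    have hzz : ∀ i j k, Continuous fun s => zz u h (bs H h s) i j k := fun i j k => by
      unfold zz Lf
      have := hbs i; have := hbs j; have := hbs k
      fun_prop
    apply Continuous.add
    · apply continuous_const.mul
      apply continuous_finsetSum; intro i _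
      apply continuous_finsetSum; intro j _
      split_ifs
      · exact hgg i j
      · exact continuous_const
    · apply continuous_const.mul
      apply continuous_finsetSum; intro i _
      apply continuous_finsetSum; intro j _
      apply continuous_finsetSum; intro k _
      split_ifs
      · exact hzz i j k
      · exact continuous_const
  have hFt : Tendsto F (𝓝[<] 1) (𝓝 (F 1)) := hFc.continuousAt.tendsto.mono_left nhdsWithin_le_nhds
  -- eventually the formula holds
  have hIoo : ∀ᶠ s in 𝓝[<] (1 : ℝ), s ∈ Ioo (0 : ℝ) 1 := Ioo_mem_nhdsLT zero_lt_one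
  have hex : ∀ᶠ s in 𝓝[<] (1 : ℝ), ∀ i j k, Lf u h i j k ≠ 0 →
      s ≠ Lf u H i j k / Lf u h i j k := by
    rw [eventually_all]; intro i
    rw [eventually_all]; intro j
    rw [eventually_all]; intro k
    by_cases hr : Lf u H i j k / Lf u h i j k < 1
    · have : ∀ᶠ s in 𝓝[<] (1 : ℝ), s ∈ Ioo (Lf u H i j k / Lf u h i j k) 1 := Ioo_mem_nhdsLT hr
      filter_upwards [this] with s hs _
      exact hs.1.ne'
    · push Not at hr
      filter_upwards [hIoo] with s hs _
      exact (hs.2.trans_le hr).ne
  have hA : ∀ᶠ s in 𝓝[<] (1 : ℝ), ∀ i j k,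
      (A3 u H (fun i => s * h i) i j k ↔ A3 u H h i j k) := by
    rw [eventually_all]; intro i
    rw [eventually_all]; intro j
    rw [eventually_all]; intro k
    have hbs : ∀ s r, bs H (fun i => s * h i) r = bs H h (r * s) := by
      intro s r; funext i; unfold bs; ring
    by_cases hA : A3 u H h i j k
    · obtain ⟨hne, r, hr0, hr1, x, hx, e⟩ := id hA
      have : ∀ᶠ s in 𝓝[<] (1 : ℝ), s ∈ Ioo r 1 := Ioo_mem_nhdsLT hr1
      filter_upwards [this] with s hs
      refine ⟨fun _ => hA, fun _ => ⟨hne, r / s, div_pos hr0 (hr0.trans hs.1), ?_, x, ?_⟩⟩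
      · rw [div_lt_one (hr0.trans hs.1)]; exact hs.1
      · rw [hbs, div_mul_cancel₀ _ (hr0.trans hs.1).ne']
        exact ⟨hx, e⟩
    · filter_upwards [hIoo] with s hs
      refine ⟨?_, fun h => absurd h hA⟩
      rintro ⟨hne, r, hr0, hr1, x, hx, e⟩
      rw [hbs] at hx e
      exact ⟨hne, r * s, mul_pos hr0 hs.1, by nlinarith [hs.1, hs.2], x, hx, e⟩
  have hform : ∀ᶠ s in 𝓝[<] (1 : ℝ), (volume (Q u (bs H h s))).toReal = F s := by
    filter_upwards [hIoo, hex, hA] with s hs hex hA
    have e1 : bs H (fun i => s * h i) 1 = bs H h s := by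
      funext i; unfold bs; ring
    have hsim := simple_of_not_mem hg h0 ht hs.1 hs.2 hex
    have := death_aux hg hp h0 (by rw [e1]; exact hsim) (noTie_smul ht hs.1 hs.2.le)
    rw [e1] at this
    rw [this, hF]
    simp only
    congr 2
    apply Finset.sum_congr rfl; intro i _
    apply Finset.sum_congr rfl; intro j _
    apply Finset.sum_congr rfl; intro k _
    rw [if_congr (hA i j k) rfl rfl]
    apply if_congr Iff.rfl _ rfl
    unfold zz
    have : Lf u (fun i => s * h i) i j k = s * Lf u h i j k := by unfold Lf; ring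
    rw [this]
    have hsg : Real.sign (s * Lf u h i j k) = Real.sign (Lf u h i j k) := by
      rcases lt_trichotomy (Lf u h i j k) 0 with hL | hL | hL
      · rw [Real.sign_of_neg hL, Real.sign_of_neg (mul_neg_of_pos_of_neg hs.1 hL)]
      · rw [hL, mul_zero]
      · rw [Real.sign_of_pos hL, Real.sign_of_pos (mul_pos hs.1 hL)]
    rw [hsg]
  have h1 := (tendsto_vol hg H h).congr' hform
  exact tendsto_nhds_unique h1 hFt

open Classical in
/-- **The death event formula.** -/
theorem death [Fintype ι] {u : ι → ℂ} (hg : Gen u) {H : ι → ℝ} (h0 : Simple u H) :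
    ∃ W : (ι → ℝ) → ℝ, IsQ W ∧ ∀ h, NoTie u H h →
      (volume (Q u (bs H h 1))).toReal = W h
        + (1 / 6) * ∑ i, ∑ j, ∑ k, if A3 u H h i j k then zz u h (bs H h 1) i j k else 0 := by
  obtain ⟨c, hc⟩ := exists_rot (ne_zero_of_gen hg)
  set u' : ι → ℂ := fun i => (c : ℂ) * u i with hu'
  refine ⟨fun h => (1 / 2) * (∑ i, ∑ j, if i ≠ j ∧ vt u' H i j ∈ Q u' H then
    gg u' (bs H h 1) i j else 0), ?_, ?_⟩
  · apply isQ_const_mul
    apply isQ_sum; intro i _
    apply isQ_sum; intro j _
    split_ifs
    · exact isQ_gg u' H i j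
    · exact isQ_zero
  · intro h ht
    have key := death_lim (gen_rot c hg) hc (simple_rot c h0) (noTie_rot c ht)
    rw [volume_Q_rot] at key
    rw [key]
    congr 2
    apply Finset.sum_congr rfl; intro i _
    apply Finset.sum_congr rfl; intro j _
    apply Finset.sum_congr rfl; intro k _
    rw [if_congr (A3_rotate c) rfl rfl, zz_rotate]

end Pool.Agent.H96A
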