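import Pool.Agent.Helper96_AEU.OneD
import Pool.Agent.Helper62_TRI.Defs

/-!
The vertex formula for the area of a simple polygon given by inequalities.
-/

namespace Pool.Agent.H96A

open MeasureTheory Set Pool.Agent.H62T

variable {ι : Type*}

/-- the closed polygon -/
def Q (u : ι → ℂ) (b : ι → ℝ) : Set ℂ := {x | ∀ i, ip (u i) x ≤ b i}

/-- the linear form in the support numbers that vanishes when three lines are concurrent -/
noncomputable def Lf (u : ι → ℂ) (b : ι → ℝ) (i j k : ι) : ℝ :=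
  dt (u j) (u k) * b i + dt (u k) (u i) * b j + dt (u i) (u j) * b k

/-- intersection point of two of the lines -/
noncomputable def vt (u : ι → ℂ) (b : ι → ℝ) (i j : ι) : ℂ :=
  ⟨(b i * (u j).im - b j * (u i).im) / dt (u i) (u j),
    (b j * (u i).re - b i * (u j).re) / dt (u i) (u j)⟩

/-- no parallel sides, and the polygons are bounded -/
structure Gen (u : ι → ℂ) : Prop where
  nd : ∀ i j, i ≠ j → dt (u i) (u j) ≠ 0
  bd : ∀ w : ℂ, w ≠ 0 → ∃ i, 0 < ip (u i) w

/-- at most two side lines at every point of the polygon -/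
def Simple (u : ι → ℂ) (b : ι → ℝ) : Prop :=
  ∀ x ∈ Q u b, ∀ i j k, i ≠ j → i ≠ k → j ≠ k →
    ip (u i) x = b i → ip (u j) x = b j → ip (u k) x ≠ b k

theorem ip_vt_left {u : ι → ℂ} {b : ι → ℝ} {i j : ι} (h : dt (u i) (u j) ≠ 0) :
    ip (u i) (vt u b i j) = b i := by
  unfold ip vt
  simp only
  rw [← mul_div_assoc, ← mul_div_assoc, ← add_div, div_eq_iff h]
  unfold dt; ring

theorem ip_vt_right {u : ι → ℂ} {b : ι → ℝ} {i j : ι} (h : dt (u i) (u j) ≠ 0) :
    ip (u j) (vt u b i j) = b j := by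
  unfold ip vt
  simp only
  rw [← mul_div_assoc, ← mul_div_assoc, ← add_div, div_eq_iff h]
  unfold dt; ring

theorem sub_ip_vt {u : ι → ℂ} {b : ι → ℝ} {i j : ι} (k : ι) (h : dt (u i) (u j) ≠ 0) :
    b k - ip (u k) (vt u b i j) = Lf u b i j k / dt (u i) (u j) := by
  unfold ip vt Lf
  simp only
  rw [← mul_div_assoc, ← mul_div_assoc, ← add_div, sub_eq_iff_eq_add, ← add_div, eq_div_iff h]
  unfold dt; ring

theorem eq_of_ip {z w x y : ℂ} (h : dt z w ≠ 0) (h1 : ip z x = ip z y) (h2 : ip w x = ip w y) :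
    x = y := by
  unfold ip at h1 h2
  unfold dt at h
  have e1 : (z.re * w.im - z.im * w.re) * (x.re - y.re) = 0 := by
    linear_combination w.im * h1 - z.im * h2
  have e2 : (z.re * w.im - z.im * w.re) * (x.im - y.im) = 0 := by
    linear_combination z.re * h2 - w.re * h1
  apply Complex.ext
  · have := (mul_eq_zero.1 e1).resolve_left h; linarith
  · have := (mul_eq_zero.1 e2).resolve_left h; linarith

theorem eq_vt {u : ι → ℂ} {b : ι → ℝ} {i j : ι} (h : dt (u i) (u j) ≠ 0) {x : ℂ}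
    (h1 : ip (u i) x = b i) (h2 : ip (u j) x = b j) : x = vt u b i j :=
  eq_of_ip h (by rw [h1, ip_vt_left h]) (by rw [h2, ip_vt_right h])

theorem vt_symm {u : ι → ℂ} {b : ι → ℝ} {i j : ι} (h : dt (u i) (u j) ≠ 0) :
    vt u b j i = vt u b i j := by
  have h' : dt (u j) (u i) ≠ 0 := by
    intro e; apply h; unfold dt at *; linarith
  exact eq_vt h (ip_vt_right h') (ip_vt_left h')

theorem isClosed_Q [Finite ι] (u : ι → ℂ) (b : ι → ℝ) : IsClosed (Q u b) := by
  have : Q u b = ⋂ i, {x | ip (u i) x ≤ b i} := by ext; simp [Q]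
  rw [this]
  refine isClosed_iInter fun i => isClosed_le ?_ continuous_const
  unfold ip; fun_prop

theorem bounded_Q [Fintype ι] {u : ι → ℂ} (h : ∀ w : ℂ, w ≠ 0 → ∃ i, 0 < ip (u i) w)
    (b : ι → ℝ) : Bornology.IsBounded (Q u b) := by
  obtain ⟨i0, -⟩ := h 1 one_ne_zero
  have hne : (Finset.univ : Finset ι).Nonempty := ⟨i0, Finset.mem_univ _⟩
  set m : ℂ → ℝ := fun w => Finset.univ.sup' hne fun i => ip (u i) w with hm
  have hmc : Continuous m := by
    apply Continuous.finset_sup'_apply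
    intro i _
    unfold ip; fun_prop
  obtain ⟨w, hw, hwm⟩ := (isCompact_sphere (0 : ℂ) 1).exists_isMinOn
    (NormedSpace.sphere_nonempty.2 zero_le_one) hmc.continuousOn
  have hw0 : w ≠ 0 := by
    intro e; rw [e] at hw; simp at hw
  have hpos : 0 < m w := by
    obtain ⟨i, hi⟩ := h w hw0
    exact hi.trans_le (Finset.le_sup' (fun i => ip (u i) w) (Finset.mem_univ i))
  obtain ⟨B, hB⟩ : ∃ B : ℝ, ∀ i, b i ≤ B :=
    ⟨Finset.univ.sup' hne b, fun i => Finset.le_sup' b (Finset.mem_univ i)⟩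
  refine (Metric.isBounded_closedBall (x := (0 : ℂ)) (r := max (B / m w) 0)).subset ?_
  intro x hx
  rw [mem_closedBall_zero_iff]
  by_cases hx0 : x = 0
  · rw [hx0, norm_zero]; exact le_max_right _ _
  have hn : 0 < ‖x‖ := norm_pos_iff.2 hx0
  have hs : ((‖x‖⁻¹ : ℝ) : ℂ) * x ∈ Metric.sphere (0 : ℂ) 1 := by
    rw [mem_sphere_zero_iff_norm, norm_mul, Complex.norm_real, norm_inv, norm_norm]
    exact inv_mul_cancel₀ hn.ne'
  have h1 := hwm hs
  simp only [mem_ofPred_eq] at h1
  obtain ⟨i, -, hi⟩ := Finset.exists_mem_eq_sup' hne fun i => ip (u i) (((‖x‖⁻¹ : ℝ) : ℂ) * x)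
  have h2 : m (((‖x‖⁻¹ : ℝ) : ℂ) * x) = ‖x‖⁻¹ * ip (u i) x := by
    rw [hm]; simp only; rw [hi]
    unfold ip; simp; ring
  rw [h2] at h1
  have h3 : ip (u i) x ≤ B := (hx i).trans (hB i)
  have h4 : m w * ‖x‖ ≤ B := by
    calc m w * ‖x‖ ≤ (‖x‖⁻¹ * ip (u i) x) * ‖x‖ := by gcongr
      _ = ip (u i) x := by field_simp
      _ ≤ B := h3
  refine le_trans ?_ (le_max_left _ _)
  rw [le_div_iff₀ hpos]
  linarith

theorem volume_slices {S : Set ℂ} (hS : MeasurableSet S) :
    volume S = ∫⁻ s : ℝ, volume {y : ℝ | (⟨s, y⟩ : ℂ) ∈ S} := by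
  have h1 := (Complex.volume_preserving_equiv_real_prod.symm).measure_preimage hS.nullMeasurableSet
  rw [← h1, Measure.volume_eq_prod, Measure.prod_apply]
  · rfl
  · exact Complex.measurableEquivRealProd.symm.measurable hS

/-! ### The formula -/

theorem sign_mul_self_eq_abs (p : ℝ) : Real.sign p * p = |p| := by
  rcases lt_trichotomy p 0 with h | h | h
  · rw [Real.sign_of_neg h, abs_of_neg h]; ring
  · rw [h]; simp
  · rw [Real.sign_of_pos h, abs_of_pos h]; ring

theorem sign_eq_or {p : ℝ} (h : p ≠ 0) : Real.sign p = 1 ∨ Real.sign p = -1 := by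
  rcases lt_or_gt_of_ne h with h | h
  · right; exact Real.sign_of_neg h
  · left; exact Real.sign_of_pos h

theorem sign_mul_sub_div {p : ℝ} (h : p ≠ 0) (y c : ℝ) :
    Real.sign p * (y - c / p) ≤ 0 ↔ p * y ≤ c := by
  rcases lt_or_gt_of_ne h with h' | h'
  · rw [Real.sign_of_neg h']
    have : -1 * (y - c / p) ≤ 0 ↔ c / p ≤ y := by constructor <;> intro _ <;> linarith
    rw [this, div_le_iff_of_neg h', mul_comm]
  · rw [Real.sign_of_pos h']
    have : 1 * (y - c / p) ≤ 0 ↔ y ≤ c / p := by constructor <;> intro _ <;> linarith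
    rw [this, le_div_iff₀ h', mul_comm]

/-- the height of the side line `i` over the abscissa `s` -/
noncomputable def fl (u : ι → ℂ) (b : ι → ℝ) (i : ι) (s : ℝ) : ℝ :=
  (b i - (u i).re * s) / (u i).im

theorem continuous_fl (u : ι → ℂ) (b : ι → ℝ) (i : ι) : Continuous (fl u b i) := by
  unfold fl; fun_prop

theorem mem_Q_mk {u : ι → ℂ} {b : ι → ℝ} {s y : ℝ} :
    (⟨s, y⟩ : ℂ) ∈ Q u b ↔ ∀ i, (u i).im * y ≤ b i - (u i).re * s := by
  unfold Q ip
  simp only [mem_ofPred_eq]
  exact forall_congr' fun i => by constructor <;> intro _ <;> linarith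

theorem sat_slice {u : ι → ℂ} (hp : ∀ i, (u i).im ≠ 0) {b : ι → ℝ} (s y : ℝ) :
    Sat (fun i => fl u b i s) (fun i => Real.sign (u i).im) y ↔ (⟨s, y⟩ : ℂ) ∈ Q u b := by
  rw [mem_Q_mk]
  unfold Sat fl
  exact forall_congr' fun i => sign_mul_sub_div (hp i) y _

theorem re_vt_of_fl {u : ι → ℂ} (hp : ∀ i, (u i).im ≠ 0) {b : ι → ℝ} {i j : ι}
    (h : dt (u i) (u j) ≠ 0) {s : ℝ} (hs : fl u b i s = fl u b j s) : s = (vt u b i j).re := by
  unfold fl at hs
  rw [div_eq_div_iff (hp i) (hp j)] at hs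
  unfold vt
  simp only
  rw [eq_div_iff h]
  unfold dt
  linarith

theorem ip_fl {u : ι → ℂ} (hp : ∀ i, (u i).im ≠ 0) (b : ι → ℝ) (i : ι) (s : ℝ) :
    ip (u i) ⟨s, fl u b i s⟩ = b i := by
  unfold ip fl
  simp only
  have := hp i
  field_simp
  ring

theorem mk_fl_vt {u : ι → ℂ} (hp : ∀ i, (u i).im ≠ 0) {b : ι → ℝ} {i j : ι}
    (h : dt (u i) (u j) ≠ 0) : (⟨(vt u b i j).re, fl u b i (vt u b i j).re⟩ : ℂ) = vt u b i j := by
  apply Complex.ext
  · rfl
  · simp only
    unfold fl
    rw [div_eq_iff (hp i)]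
    have := ip_vt_left (b := b) h
    unfold ip at this
    linarith

/-- the part of the side line `i` in the polygon -/
def Es (u : ι → ℂ) (b : ι → ℝ) (i : ι) : Set ℝ := {s | (⟨s, fl u b i s⟩ : ℂ) ∈ Q u b}

theorem isCompact_Es [Fintype ι] {u : ι → ℂ} (hg : Gen u) (b : ι → ℝ) (i : ι) :
    IsCompact (Es u b i) := by
  have hc : Continuous fun s : ℝ => (⟨s, fl u b i s⟩ : ℂ) := by
    have : (fun s : ℝ => (⟨s, fl u b i s⟩ : ℂ)) = fun s : ℝ => (s : ℂ) + (fl u b i s : ℂ) * Complex.I := by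
      funext s; apply Complex.ext <;> simp
    rw [this]
    have := continuous_fl u b i
    fun_prop
  have hcl : IsClosed (Es u b i) := (isClosed_Q u b).preimage hc
  obtain ⟨R, hR⟩ := (bounded_Q hg.bd b).exists_norm_le
  refine (isCompact_Icc (a := -R) (b := R)).of_isClosed_subset hcl ?_
  intro s hs
  have h1 := hR _ hs
  have h2 := (Complex.abs_re_le_norm (⟨s, fl u b i s⟩ : ℂ)).trans h1
  exact abs_le.1 h2

open Classical in
theorem integral_Es [Fintype ι] {u : ι → ℂ} (hg : Gen u) (hp : ∀ i, (u i).im ≠ 0) {b : ι → ℝ}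
    (hs : Simple u b) (i : ι) :
    ∫ s in Es u b i, fl u b i s = ∑ j, if i ≠ j ∧ vt u b i j ∈ Q u b then
      Real.sign (dt (u j) (u i) * (u i).im) *
        ((b i * (vt u b i j).re - (u i).re * (vt u b i j).re ^ 2 / 2) / (u i).im) else 0 := by
  have hnd : ∀ j, j ≠ i → dt (u j) (u i) * (u i).im ≠ 0 := fun j hj =>
    mul_ne_zero (hg.nd j i hj) (hp i)
  set t : {j // j ≠ i} → ℝ := fun j => (vt u b i j).re with ht
  set ε : {j // j ≠ i} → ℝ := fun j => Real.sign (dt (u j) (u i) * (u i).im) with hε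
  have hsat : ∀ s, Sat t ε s ↔ s ∈ Es u b i := by
    intro s
    have h1 : ∀ j : {j // j ≠ i}, ε j * (s - t j) ≤ 0 ↔ ip (u j) ⟨s, fl u b i s⟩ ≤ b j := by
      rintro ⟨j, hj⟩
      have e1 : t ⟨j, hj⟩ = (u i).im ^ 2 * (b j - (u j).im * b i / (u i).im) /
          (dt (u j) (u i) * (u i).im) := by
        have h1 := hp i
        have h2 := hg.nd j i hj
        have h3 := hg.nd i j hj.symm
        have h4 : dt (u i) (u j) = - dt (u j) (u i) := by unfold dt; ring
        simp only [ht, vt]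
        rw [h4]
        field_simp
        ring
      rw [e1, hε]
      simp only
      rw [sign_mul_sub_div (hnd j hj)]
      have hp2 : 0 < (u i).im ^ 2 := by have := hp i; positivity
      rw [show dt (u j) (u i) * (u i).im * s = (u i).im ^ 2 * (dt (u j) (u i) / (u i).im * s) by
        have := hp i
        field_simp]
      rw [mul_le_mul_iff_right₀ hp2]
      have e2 : ip (u j) ⟨s, fl u b i s⟩ = dt (u j) (u i) / (u i).im * s
          + (u j).im * b i / (u i).im := by
        unfold ip fl dt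
        simp only
        have := hp i
        field_simp
        ring
      rw [e2]
      constructor <;> intro _ <;> linarith
    constructor
    · intro h j
      by_cases hj : j = i
      · rw [hj, ip_fl hp]
      · exact (h1 ⟨j, hj⟩).1 (h ⟨j, hj⟩)
    · intro h j
      exact (h1 j).2 (h j)
  have hex : ∀ w : ℂ, w ≠ 0 → ip (u i) w = 0 → ∃ j, j ≠ i ∧ 0 < ip (u j) w := by
    intro w hw h0
    obtain ⟨j, hj⟩ := hg.bd w hw
    refine ⟨j, ?_, hj⟩
    rintro rfl
    rw [h0] at hj
    exact lt_irrefl _ hj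
  have hui : u i ≠ 0 := by
    intro h
    apply hp i
    rw [h]; rfl
  have hsgn : ∀ c : ℝ, c ≠ 0 → ∃ j : {j // j ≠ i}, 0 < dt (u j) (u i) * c := by
    intro c hc
    obtain ⟨j, hj, hj2⟩ := hex (⟨(u i).im * c, - (u i).re * c⟩ : ℂ) (by
      intro h
      have h1 := congrArg Complex.re h
      simp only [Complex.zero_re] at h1
      exact (mul_ne_zero (hp i) hc) h1) (by unfold ip; simp only; ring)
    refine ⟨⟨j, hj⟩, ?_⟩
    have : dt (u j) (u i) * c = ip (u j) ⟨(u i).im * c, - (u i).re * c⟩ := by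
      unfold ip dt; simp only; ring
    rw [this]; exact hj2
  have key := one_dim t ε (fun j => sign_eq_or (hnd j j.2))
    (by
      obtain ⟨j, hj⟩ := hsgn (u i).im (hp i)
      exact ⟨j, Real.sign_of_pos hj⟩)
    (by
      obtain ⟨j, hj⟩ := hsgn (-(u i).im) (neg_ne_zero.2 (hp i))
      refine ⟨j, Real.sign_of_neg ?_⟩
      linarith)
    (by
      rintro ⟨j, hj⟩ ⟨k, hk⟩ hsa hjk
      by_contra hne
      have hne' : j ≠ k := fun h => hne (Subtype.ext h)
      rw [hsat] at hsa
      simp only [ht] at hsa hjk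
      have hij := hg.nd i j hj.symm
      have hik := hg.nd i k hk.symm
      have hm : vt u b i j ∈ Q u b := by
        have : (⟨(vt u b i j).re, fl u b i (vt u b i j).re⟩ : ℂ) ∈ Q u b := hsa
        rwa [mk_fl_vt hp hij] at this
      have e : vt u b i j = vt u b i k := by
        rw [← mk_fl_vt hp hij, ← mk_fl_vt hp hik, hjk]
      exact hs _ hm i j k hj.symm hk.symm hne' (ip_vt_left hij) (ip_vt_right hij)
        (by rw [e]; exact ip_vt_right hik))
    (fun s => (b i * s - (u i).re * s ^ 2 / 2) / (u i).im) (fl u b i)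
    (by
      intro s
      unfold fl
      have h1 : HasDerivAt (fun s : ℝ => b i * s - (u i).re * s ^ 2 / 2)
          (b i * 1 - (u i).re * (((2 : ℕ) : ℝ) * s ^ (2 - 1) * 1) / 2) s := by
        apply HasDerivAt.sub
        · exact (hasDerivAt_id s).const_mul (b i)
        · apply HasDerivAt.div_const
          apply HasDerivAt.const_mul
          exact (hasDerivAt_id s).pow 2
      have h2 := h1.div_const (u i).im
      have h3 : (b i - (u i).re * s) / (u i).im
          = (b i * 1 - (u i).re * (((2 : ℕ) : ℝ) * s ^ (2 - 1) * 1) / 2) / (u i).im := by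
        norm_num
        congr 1
        ring
      rw [h3]
      exact h2)
    (continuous_fl u b i)
  have hset : {s | Sat t ε s} = Es u b i := by ext s; exact hsat s
  rw [hset] at key
  rw [key]
  rw [← Finset.sum_subset (Finset.subset_univ (Finset.univ.filter fun j => j ≠ i))
    (by
      intro x _ hx
      simp only [Finset.mem_filter, Finset.mem_univ, true_and, not_not] at hx
      rw [if_neg]
      rintro ⟨h, -⟩
      exact h hx.symm)]
  rw [Finset.sum_subtype (p := fun j => j ≠ i) (Finset.univ.filter fun j => j ≠ i)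
    (by intro x; simp)]
  apply Finset.sum_congr rfl
  rintro ⟨j, hj⟩ _
  have hij := hg.nd i j hj.symm
  have e : (Sat t ε (t ⟨j, hj⟩)) ↔ (i ≠ j ∧ vt u b i j ∈ Q u b) := by
    rw [hsat]
    simp only [ht, Es, mem_ofPred_eq]
    rw [mk_fl_vt hp hij]
    constructor
    · intro h; exact ⟨hj.symm, h⟩
    · intro h; exact h.2
  exact if_congr e rfl rfl

end Pool.Agent.H96A
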