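import Mathlib

/-!
A one dimensional lemma: a finite family of half lines in general position.
-/

namespace Pool.Agent.H96A

open MeasureTheory Set

/-- `s` satisfies all the constraints `ε j * (s - t j) ≤ 0` -/
def Sat {J : Type*} (t ε : J → ℝ) (s : ℝ) : Prop := ∀ l, ε l * (s - t l) ≤ 0

open Classical in
/-- integration over the interval cut out by finitely many half lines -/
theorem one_dim {J : Type*} [Fintype J] (t ε : J → ℝ) (hε : ∀ j, ε j = 1 ∨ ε j = -1)
    (hp : ∃ j, ε j = 1) (hm : ∃ j, ε j = -1)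
    (hinj : ∀ j k, Sat t ε (t j) → t j = t k → j = k)
    (F f : ℝ → ℝ) (hF : ∀ s, HasDerivAt F (f s) s) (hf : Continuous f) :
    ∫ s in {s | Sat t ε s}, f s = ∑ j, if Sat t ε (t j) then ε j * F (t j) else 0 := by
  obtain ⟨k0, hk0, hk0m⟩ : ∃ k, ε k = 1 ∧ ∀ j, ε j = 1 → t k ≤ t j := by
    obtain ⟨k, hk, hk'⟩ := Finset.exists_min_image (Finset.univ.filter fun j => ε j = 1) t
      (by obtain ⟨j, hj⟩ := hp; exact ⟨j, by simp [hj]⟩)
    exact ⟨k, by simpa using hk, fun j hj => hk' j (by simpa using hj)⟩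
  obtain ⟨j0, hj0, hj0m⟩ : ∃ k, ε k = -1 ∧ ∀ j, ε j = -1 → t j ≤ t k := by
    obtain ⟨k, hk, hk'⟩ := Finset.exists_max_image (Finset.univ.filter fun j => ε j = -1) t
      (by obtain ⟨j, hj⟩ := hm; exact ⟨j, by simp [hj]⟩)
    exact ⟨k, by simpa using hk, fun j hj => hk' j (by simpa using hj)⟩
  have hsat : ∀ s, Sat t ε s ↔ t j0 ≤ s ∧ s ≤ t k0 := by
    intro s
    constructor
    · intro h
      have h1 := h j0
      have h2 := h k0
      rw [hj0] at h1
      rw [hk0] at h2
      constructor <;> linarith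
    · rintro ⟨h1, h2⟩ l
      rcases hε l with hl | hl
      · have := hk0m l hl
        rw [hl]; linarith
      · have := hj0m l hl
        rw [hl]; linarith
  have hset : {s | Sat t ε s} = Icc (t j0) (t k0) := by
    ext s; simp [hsat s]
  by_cases hle : t j0 ≤ t k0
  · have hne : j0 ≠ k0 := by
      rintro rfl
      rw [hj0] at hk0; norm_num at hk0
    have e1 : ∀ j, ε j = 1 → Sat t ε (t j) → j = k0 := by
      intro j hj hs
      exact hinj j k0 hs (le_antisymm ((hsat _).1 hs).2 (hk0m j hj))
    have e2 : ∀ j, ε j = -1 → Sat t ε (t j) → j = j0 := by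
      intro j hj hs
      exact hinj j j0 hs (le_antisymm (hj0m j hj) ((hsat _).1 hs).1)
    have hsum : (∑ j, if Sat t ε (t j) then ε j * F (t j) else 0) = F (t k0) - F (t j0) := by
      rw [← Finset.sum_subset (Finset.subset_univ {j0, k0})]
      · rw [Finset.sum_pair hne]
        have a1 : Sat t ε (t j0) := (hsat _).2 ⟨le_refl _, hle⟩
        have a2 : Sat t ε (t k0) := (hsat _).2 ⟨hle, le_refl _⟩
        rw [if_pos a1, if_pos a2, hj0, hk0]; ring
      · intro x _ hx
        simp only [Finset.mem_insert, Finset.mem_singleton, not_or] at hx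
        rw [if_neg]
        intro hs
        rcases hε x with h | h
        · exact hx.2 (e1 x h hs)
        · exact hx.1 (e2 x h hs)
    rw [hsum, hset, integral_Icc_eq_integral_Ioc, ← intervalIntegral.integral_of_le hle]
    exact intervalIntegral.integral_eq_sub_of_hasDerivAt (fun x _ => hF x)
      (hf.intervalIntegrable _ _)
  · have hempty : ∀ s, ¬ Sat t ε s := by
      intro s hs
      exact hle (((hsat s).1 hs).1.trans ((hsat s).1 hs).2)
    have : {s | Sat t ε s} = ∅ := by
      ext s; simp [hempty s]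
    rw [this]
    simp [hempty]

open Classical in
/-- counting version -/
theorem one_dim_count {J : Type*} [Fintype J] (t ε : J → ℝ) (hε : ∀ j, ε j = 1 ∨ ε j = -1)
    (hp : ∃ j, ε j = 1) (hm : ∃ j, ε j = -1)
    (hinj : ∀ j k, Sat t ε (t j) → t j = t k → j = k) :
    ∑ j, (if Sat t ε (t j) then ε j else 0) = 0 := by
  have h := one_dim t ε hε hp hm hinj (fun _ => 1) (fun _ => 0)
    (fun s => hasDerivAt_const s 1) continuous_const
  simp only [integral_zero, mul_one] at h
  exact h.symm

end Pool.Agent.H96A
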